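import Pool.Agent.Lib.PlaneTop.HasLog
import Mathlib
import Pool.Agent.MP_61130f_an.Defs

attribute [-instance] AddQuantale.instAddLeftMono IsOrderedRing.toIsStrictOrderedRing
  RKHS.instFunLike IsTopologicalTorsor.toContinuousSMul NumberField.to_charZero Valued.toUniformSpace
  Group.IsPerfect.subsingleton_of_isMulCommutative ProperSMul.toContinuousSMul
  AddQuantale.instAddRightMono RightPreLieAlgebra.toModule LeftPreLieAlgebra.toModule
  CStarAlgebra.instOrderClosedTopology IdemSemiring.toCanonicallyOrderedAdd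
  TotallySeparatedSpace.t2Space AlgHom.instNonUnitalAlgHomClassOfAlgHomClass
  Topology.IsScott.instClosedIicTopologyOfUnivSet continuousSub_of_discreteTopology
  Quantale.instMulRightMono TopologicalSpace.NoetherianSpace.compactSpace instCoeOTCOfCoeOut
  LinearOrderedCommMonoidWithZero.toPosMulStrictMono LieRinehartAlgebra.toIsScalarTower
  instCoeHTCTOfCoeTailOfCoeHTC IsScalarTower.complexToReal
  instNonUnitalAlgHomClassOfNonUnitalAlgEquivClass instCoeHTCOfCoeHeadOfCoeOTC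
  AlexandrovDiscrete.toLocallyCompactSpace continuousSub_of_indiscreteTopology
  NonarchimedeanRing.toIsTopologicalRing instCoeTOfCoeDep MeasureTheory.instSFiniteOfCountable
  DiscreteMeasurableSpace.toMeasurableDiv₂ TestFunctionClass.toDFunLike
  LinearOrderedCommMonoidWithZero.toIsBotZeroClass ContDiffMapSupportedInClass.toDFunLike
  LieAdmissibleRing.toNonUnitalNonAssocRing Unique.instSubsingleton
  NonarchimedeanAddGroup.toIsTopologicalAddGroup IsStarProjection.instTrivialStarOfStarOrderedRing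

-- part MP_61130f_an.Cross
section

/-! Plane topology of invariant essential curves: crossing lemma, free discs, low curves. -/

namespace Pool.Agent.MP_61130f_an

open Set Filter Topology

lemma vseg_pc (x a b : ℝ) : IsPathConnected ({x} ×ˢ uIcc a b : Set (ℝ × ℝ)) :=
  ((convex_singleton x).prod (convex_uIcc a b)).isPathConnected ⟨(x, a), by simp⟩

lemma path_bd {X : Type*} [TopologicalSpace X] [CompactSpace X] {f : X → ℝ} (hf : Continuous f) :
    ∃ N, ∀ t, |f t| ≤ N := by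
  obtain ⟨N, hN⟩ := (isCompact_range hf).isBounded.exists_norm_le
  exact ⟨N, fun t => hN _ ⟨t, rfl⟩⟩

/-- crossing lemma -/
lemma cross {A B : Set (ℝ × ℝ)} (hA : IsPathConnected A) (hB : IsPathConnected B)
    (hl : ∀ N, ∃ a ∈ A, a.1 ≤ N) (hr : ∀ N, ∃ a ∈ A, N ≤ a.1)
    {z w : ℝ × ℝ} (hz : z ∈ B) (hw : w ∈ B)
    (hup : ∀ t, z.2 < t → (z.1, t) ∉ A) (hdn : ∀ t, t < w.2 → (w.1, t) ∉ A) :
    (A ∩ B).Nonempty := by
  obtain ⟨β, hβ⟩ := hB.joinedIn z hz w hw
  obtain ⟨N, hN⟩ := path_bd (f := fun t => (β t).1) (by fun_prop)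
  obtain ⟨x, hx, hxN⟩ := hl (-N)
  obtain ⟨y, hy, hyN⟩ := hr N
  obtain ⟨γ, hγ⟩ := hA.joinedIn x hx y hy
  obtain ⟨H, hH⟩ := path_bd (f := fun t => (γ t).2) (by fun_prop)
  have hzN : |z.1| ≤ N := by simpa using hN 0
  have hwN : |w.1| ≤ N := by simpa only [Path.target] using hN 1
  have hB' : IsPathConnected (({z.1} ×ˢ uIcc z.2 (max H z.2)) ∪ range β ∪
      ({w.1} ×ˢ uIcc w.2 (min (-H) w.2))) := by
    have hr : IsPathConnected (range β) := by
      rw [← β.extend_range]; exact isPathConnected_range β.continuous_extend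
    refine ((vseg_pc _ _ _).union hr ⟨z, by simp only [le_sup_right, uIcc_of_le, mem_prod, mem_singleton_iff, mem_Icc, Std.le_refl, and_self], 0, by simp⟩).union
      (vseg_pc _ _ _) ⟨w, Or.inr ⟨1, by simp⟩, by simp only [inf_le_right, uIcc_of_ge, mem_prod, mem_singleton_iff, mem_Icc, Std.le_refl, and_self]⟩
  obtain ⟨β', hβ'⟩ := hB'.joinedIn (z.1, max H z.2) (by simp only [le_sup_right, uIcc_of_le, inf_le_right, uIcc_of_ge, mem_union, mem_prod, mem_singleton_iff, mem_Icc, Std.le_refl, and_self, mem_range, Subtype.exists, true_or, le_sup_iff, inf_le_iff, neg_le_self_iff, sup_le_iff]) (w.1, min (-H) w.2) (by simp only [le_sup_right, uIcc_of_le, inf_le_right, uIcc_of_ge, mem_union, mem_prod, mem_singleton_iff, mem_Icc, le_inf_iff, le_sup_iff, inf_le_iff, neg_le_self_iff, mem_range, Subtype.exists, Std.le_refl, and_self, or_true])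
  have hb : ∀ t, |(β' t).1| ≤ N := by
    intro t
    rcases hβ' t with (h | ⟨r, h⟩) | h
    · rw [mem_singleton_iff.1 h.1]; exact hzN
    · rw [← h]; exact hN r
    · rw [mem_singleton_iff.1 h.1]; exact hwN
  have he : Continuous fun p : ℝ × ℝ => (p.1 : ℂ) + p.2 * Complex.I := by fun_prop
  obtain ⟨s, t, hst⟩ := Lib.PlaneTop.paths_cross (γ.map he) (β'.map he)
    (fun t => by have := abs_le.1 (hb t); simp; linarith)
    (fun t => by have := abs_le.1 (hb t); simp; linarith)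
    (fun s => by have := abs_le.1 (hH s); simp only [Path.map_coe, Function.comp_apply, Complex.add_im, Complex.ofReal_im, Complex.mul_im, Complex.ofReal_re, Complex.I_im, mul_one, Complex.I_re, mul_zero, add_zero, zero_add, le_sup_iff]; left; linarith)
    (fun s => by have := abs_le.1 (hH s); simp only [Complex.add_im, Complex.ofReal_im, Complex.mul_im, Complex.ofReal_re, Complex.I_im, mul_one, Complex.I_re, mul_zero, add_zero, zero_add, Path.map_coe, Function.comp_apply, inf_le_iff]; left; linarith)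
  have heq : γ s = β' t := by
    have h1 := congrArg Complex.re hst
    have h2 := congrArg Complex.im hst
    simp at h1 h2
    exact Prod.ext h1 h2
  have hA' : β' t ∈ A := heq ▸ hγ s
  refine ⟨β' t, hA', ?_⟩
  rcases hβ' t with (h | ⟨r, h⟩) | h
  · have h1 := mem_singleton_iff.1 h.1
    have h2 := h.2
    rw [uIcc_of_le (le_max_right _ _)] at h2
    rcases h2.1.eq_or_lt with h3 | h3
    · rw [show β' t = z from Prod.ext h1 h3.symm]; exact hz
    · exact absurd hA' (by rw [show β' t = (z.1, (β' t).2) from Prod.ext h1 rfl]; exact hup _ h3)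
  · rw [← h]; exact hβ r
  · have h1 := mem_singleton_iff.1 h.1
    have h2 := h.2
    rw [uIcc_of_ge (min_le_right _ _)] at h2
    rcases h2.2.eq_or_lt with h3 | h3
    · rw [show β' t = w from Prod.ext h1 h3]; exact hw
    · exact absurd hA' (by rw [show β' t = (w.1, (β' t).2) from Prod.ext h1 rfl]; exact hdn _ h3)

/-- a continuous curve that is shifted by `L` when the parameter grows by one -/
structure Ess (L : ℝ) (c : ℝ → ℝ × ℝ) : Prop where
  cont : Continuous c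
  ess : ∀ x, c (x + 1) = c x + (L, 0)

namespace Ess

variable {L : ℝ} {c : ℝ → ℝ × ℝ}

lemma int (h : Ess L c) (x : ℝ) (n : ℤ) : c (x + n) = c x + (n * L, 0) := by
  induction n using Int.induction_on with
  | zero => simp
  | succ n ih =>
    push_cast at ih ⊢
    rw [← add_assoc, h.ess, ih]; ext <;> simp; ring
  | pred n ih =>
    push_cast at ih ⊢
    have := h.ess (x + (-n - 1))
    rw [show x + (-(n : ℝ) - 1) + 1 = x + -n by ring, ih] at this
    rw [eq_sub_of_add_eq this.symm]; ext <;> simp only [neg_mul, Prod.fst_sub, Prod.fst_add, Prod.snd_sub, Prod.snd_add, add_zero, sub_zero]; ring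

lemma per2 (h : Ess L c) : Function.Periodic (fun x => (c x).2) 1 := fun x => by simp [h.ess]

lemma low (h : Ess L c) : ∃ a, ∀ x, (c a).2 ≤ (c x).2 := by
  obtain ⟨_, ⟨a, rfl⟩, ha⟩ := (h.per2.compact_of_continuous one_ne_zero
    (continuous_snd.comp h.cont)).exists_isLeast (range_nonempty _)
  exact ⟨a, fun x => ha ⟨x, rfl⟩⟩

lemma high (h : Ess L c) : ∃ a, ∀ x, (c x).2 ≤ (c a).2 := by
  obtain ⟨_, ⟨a, rfl⟩, ha⟩ := (h.per2.compact_of_continuous one_ne_zero
    (continuous_snd.comp h.cont)).exists_isGreatest (range_nonempty _)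
  exact ⟨a, fun x => ha ⟨x, rfl⟩⟩

lemma far (h : Ess L c) (hL : 0 < L) (a N : ℝ) :
    ∃ b, N < b ∧ N < (c b).1 ∧ (c b).2 = (c a).2 := by
  obtain ⟨n, hn⟩ := exists_nat_gt (max (N - a) ((N - (c a).1) / L))
  have h1 := (le_max_left _ _).trans_lt hn
  have h2 := (le_max_right _ _).trans_lt hn
  rw [div_lt_iff₀ hL] at h2
  have := h.int a n
  push_cast at this
  refine ⟨a + n, by linarith, ?_, ?_⟩ <;> rw [this] <;> simp
  linarith only [h2]

lemma far' (h : Ess L c) (hL : 0 < L) (a N : ℝ) :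
    ∃ b, b < N ∧ (c b).1 < N ∧ (c b).2 = (c a).2 := by
  obtain ⟨n, hn⟩ := exists_nat_gt (max (a - N) (((c a).1 - N) / L))
  have h1 := (le_max_left _ _).trans_lt hn
  have h2 := (le_max_right _ _).trans_lt hn
  rw [div_lt_iff₀ hL] at h2
  have := h.int a (-n)
  push_cast at this
  refine ⟨a + -n, by linarith, ?_, ?_⟩ <;> rw [this] <;> simp
  linarith only [h2]

lemma bd (h : Ess L c) : ∃ C, ∀ x, |(c x).1 - x * L| ≤ C := by
  have hp : Function.Periodic (fun x => (c x).1 - x * L) 1 := fun x => by simp [h.ess]; ring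
  obtain ⟨C, hC⟩ := (hp.compact_of_continuous one_ne_zero
    (by have := h.cont; fun_prop)).isBounded.exists_norm_le
  exact ⟨C, fun x => hC _ ⟨x, rfl⟩⟩

lemma proper (h : Ess L c) (hL : 0 < L) : IsProperMap c := by
  obtain ⟨C, hC⟩ := h.bd
  rw [isProperMap_iff_isCompact_preimage]
  refine ⟨h.cont, fun K hK => ?_⟩
  obtain ⟨R, hR⟩ := hK.isBounded.exists_norm_le
  refine Metric.isCompact_of_isClosed_isBounded (hK.isClosed.preimage h.cont) ?_
  refine (Metric.isBounded_Icc (-((R + C) / L)) ((R + C) / L)).subset fun x hx => ?_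
  have h1 := abs_le.1 ((norm_fst_le (c x)).trans (hR _ hx))
  have h2 := abs_le.1 (hC x)
  constructor
  · rw [neg_le, le_div_iff₀ hL]; linarith
  · rw [le_div_iff₀ hL]; linarith

lemma closed (h : Ess L c) (hL : 0 < L) : IsClosed (range c) :=
  (h.proper hL).isClosedMap.isClosed_range

lemma arc (h : Ess L c) {S : Set ℝ} (hS : Convex ℝ S) (hne : S.Nonempty) :
    IsPathConnected (c '' S) := (hS.isPathConnected hne).image h.cont

lemma left (h : Ess L c) (hL : 0 < L) (x N : ℝ) : ∃ a ∈ c '' Iic x, a.1 ≤ N := by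
  obtain ⟨b, h1, h2, -⟩ := h.far' hL 0 (min x N)
  exact ⟨_, ⟨b, (h1.trans_le (min_le_left _ _)).le, rfl⟩, (h2.trans_le (min_le_right _ _)).le⟩

lemma right (h : Ess L c) (hL : 0 < L) (x N : ℝ) : ∃ a ∈ c '' Ici x, N ≤ a.1 := by
  obtain ⟨b, h1, h2, -⟩ := h.far hL 0 (max x N)
  exact ⟨_, ⟨b, ((le_max_left _ _).trans_lt h1).le, rfl⟩, ((le_max_right _ _).trans_lt h2).le⟩

/-- a curve that reaches at least as low and at least as high as `c'` meets `c'` -/
lemma meet {L' : ℝ} {c' : ℝ → ℝ × ℝ} (h : Ess L c) (h' : Ess L' c') (hL : 0 < L') {a b : ℝ}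
    (ha : ∀ x, (c a).2 ≤ (c' x).2) (hb : ∀ x, (c' x).2 ≤ (c b).2) : ∃ x y, c x = c' y := by
  obtain ⟨p, ⟨y, hy⟩, x, -, hx⟩ := cross (isPathConnected_range h'.cont)
    (h.arc (convex_uIcc a b) ⟨a, by simp⟩)
    (fun N => by obtain ⟨_, ⟨x, -, rfl⟩, hx⟩ := h'.left hL 0 N; exact ⟨_, ⟨x, rfl⟩, hx⟩)
    (fun N => by obtain ⟨_, ⟨x, -, rfl⟩, hx⟩ := h'.right hL 0 N; exact ⟨_, ⟨x, rfl⟩, hx⟩)
    (z := c b) (w := c a) ⟨b, by simp, rfl⟩ ⟨a, by simp, rfl⟩
    (by rintro t ht ⟨x, hx⟩; have := hb x; rw [hx] at this; exact absurd ht (not_lt.2 this))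
    (by rintro t ht ⟨x, hx⟩; have := ha x; rw [hx] at this; exact absurd ht (not_lt.2 this))
  exact ⟨x, y, hx.trans hy.symm⟩

end Ess

end Pool.Agent.MP_61130f_an

end

-- part MP_61130f_an.Leaf
section

/-! Dynamics on invariant essential curves of a plane homeomorphism commuting with a shift. -/

namespace Pool.Agent.MP_61130f_an

open Set Filter Topology Function MeasureTheory

/-- `g` commutes with the horizontal shift by `L` -/
def Per (g : ℝ × ℝ → ℝ × ℝ) (L : ℝ) : Prop := ∀ p, g (p + (L, 0)) = g p + (L, 0)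

/-- a simple essential curve mapped into itself by `g` -/
structure Lf (g : ℝ × ℝ → ℝ × ℝ) (L : ℝ) (c : ℝ → ℝ × ℝ) : Prop extends Ess L c where
  inj : Injective c
  fwd : ∀ x, ∃ y, g (c x) = c y

def Plus (g : ℝ × ℝ → ℝ × ℝ) (c : ℝ → ℝ × ℝ) : Prop := ∀ x, ∃ y, x < y ∧ g (c x) = c y

def Minus (g : ℝ × ℝ → ℝ × ℝ) (c : ℝ → ℝ × ℝ) : Prop := ∀ x, ∃ y, y < x ∧ g (c x) = c y

variable {g : ℝ × ℝ ≃ₜ ℝ × ℝ} {L : ℝ} {c c' : ℝ → ℝ × ℝ}

lemma shift_int {f : ℝ → ℝ} (h : ∀ x, f (x + 1) = f x + 1) (x : ℝ) (n : ℤ) :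
    f (x + n) = f x + n := by
  have hp : Periodic (fun x => f x - x) 1 := fun x => by simp [h]
  have := hp.int_mul n x
  simp only [mul_one] at this
  linarith

lemma Lf.map (h : Lf g L c) (hL : 0 < L) (hg : Per g L) :
    ∃ f : ℝ → ℝ, Continuous f ∧ StrictMono f ∧ Surjective f ∧ (∀ x, f (x + 1) = f x + 1) ∧
      ∀ x, g (c x) = c (f x) := by
  choose f hf using h.fwd
  have hemb : IsClosedEmbedding c :=
    .of_continuous_injective_isClosedMap h.cont h.inj (h.toEss.proper hL).isClosedMap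
  have hc : Continuous f := by
    rw [hemb.isInducing.continuous_iff]
    exact (g.continuous.comp h.cont).congr hf
  have hi : Injective f := fun x y hxy => h.inj (g.injective (by rw [hf, hf, hxy]))
  have h1 : ∀ x, f (x + 1) = f x + 1 := fun x => h.inj (by rw [← hf, h.ess, hg, hf, h.ess])
  have hm : StrictMono f := by
    rcases hc.strictMono_of_inj hi with hm | hm
    · exact hm
    · have := hm (show (0 : ℝ) < 0 + 1 by norm_num)
      rw [h1] at this; linarith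
  refine ⟨f, hc, hm, hc.surjective ?_ ?_, h1, hf⟩
  · refine tendsto_atTop_atTop_of_monotone hm.monotone fun b => ⟨0 + (⌈b - f 0⌉ : ℤ), ?_⟩
    rw [shift_int h1]; linarith [Int.le_ceil (b - f 0)]
  · refine tendsto_atBot_atBot_of_monotone hm.monotone fun b => ⟨0 + (⌊b - f 0⌋ : ℤ), ?_⟩
    rw [shift_int h1]; linarith [Int.floor_le (b - f 0)]

lemma Lf.back (h : Lf g L c) (hL : 0 < L) (hg : Per g L) {p : ℝ × ℝ} {y : ℝ} (hp : g p = c y) :
    ∃ x, p = c x := by
  obtain ⟨f, -, -, hs, -, hf⟩ := h.map hL hg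
  obtain ⟨x, rfl⟩ := hs y
  exact ⟨x, g.injective (hp.trans (hf x).symm)⟩

lemma Per.symm (hg : Per g L) : Per g.symm L := fun p =>
  g.injective (by rw [hg]; simp only [Homeomorph.apply_symm_apply])

lemma Lf.symm (h : Lf g L c) (hL : 0 < L) (hg : Per g L) : Lf g.symm L c :=
  ⟨h.toEss, h.inj, fun x => h.back hL hg (by simp : g (g.symm (c x)) = c x)⟩

lemma Lf.plus_symm (h : Lf g L c) (hL : 0 < L) (hg : Per g L) (hp : Plus g c) :
    Minus g.symm c := fun x => by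
  obtain ⟨y, hy⟩ := (h.symm hL hg).fwd x
  obtain ⟨z, hz, hz'⟩ := hp y
  refine ⟨y, ?_, hy⟩
  rw [← hy, g.apply_symm_apply, h.inj.eq_iff] at hz'
  rwa [hz']

lemma Lf.minus_symm (h : Lf g L c) (hL : 0 < L) (hg : Per g L) (hp : Minus g c) :
    Plus g.symm c := fun x => by
  obtain ⟨y, hy⟩ := (h.symm hL hg).fwd x
  obtain ⟨z, hz, hz'⟩ := hp y
  refine ⟨y, ?_, hy⟩
  rw [← hy, g.apply_symm_apply, h.inj.eq_iff] at hz'
  rwa [hz']

lemma Lf.tri (h : Lf g L c) (hL : 0 < L) (hg : Per g L) (hn : ∀ x, g (c x) ≠ c x) :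
    Plus g c ∨ Minus g c := by
  obtain ⟨f, hc, -, -, -, hf⟩ := h.map hL hg
  have hne : ∀ x, f x ≠ x := fun x hx => hn x (by rw [hf, hx])
  by_cases h0 : ∀ x, x < f x
  · exact Or.inl fun x => ⟨_, h0 x, hf x⟩
  · push Not at h0
    obtain ⟨a, ha⟩ := h0
    refine Or.inr fun x => ⟨_, ?_, hf x⟩
    by_contra hx
    obtain ⟨y, hy⟩ := intermediate_value_univ₂ hc continuous_id ha (not_lt.1 hx)
    exact hne y hy

lemma iter_eq {f : ℝ → ℝ} (hf : ∀ x, g (c x) = c (f x)) (x : ℝ) (n : ℕ) :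
    g^[n] (c x) = c (f^[n] x) := by
  induction n with
  | zero => rfl
  | succ n ih => rw [iterate_succ_apply', iterate_succ_apply', ih, hf]

lemma Lf.disj (h : Lf g L c) (h' : Lf g L c') (hL : 0 < L) (hg : Per g L) (hp : Plus g c)
    (hm : Minus g c') (x x' : ℝ) : c x ≠ c' x' := by
  intro he
  obtain ⟨f, hc, -, -, h1, hf⟩ := h.map hL hg
  obtain ⟨f', -, -, -, -, hf'⟩ := h'.map hL hg
  have hper : Periodic (fun x => f x - x) 1 := fun x => by simp [h1]
  obtain ⟨_, ⟨a, rfl⟩, ha⟩ := (hper.compact_of_continuous one_ne_zero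
    (by fun_prop)).exists_isLeast (range_nonempty _)
  have hpos : 0 < f a - a := by
    obtain ⟨y, hy, hy'⟩ := hp a
    rw [hf, h.inj.eq_iff] at hy'; linarith
  have e1 : ∀ n : ℕ, x + n * (f a - a) ≤ f^[n] x := by
    intro n
    induction n with
    | zero => simp
    | succ n ih =>
      have : f a - a ≤ f (f^[n] x) - f^[n] x := ha ⟨_, rfl⟩
      rw [iterate_succ_apply']; push_cast; linarith
  have e2 : ∀ n : ℕ, f'^[n] x' ≤ x' := by
    intro n
    induction n with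
    | zero => simp
    | succ n ih =>
      obtain ⟨y, hy, hy'⟩ := hm (f'^[n] x')
      rw [hf', h'.inj.eq_iff] at hy'
      rw [iterate_succ_apply']; linarith
  obtain ⟨C, hC⟩ := h.toEss.bd
  obtain ⟨C', hC'⟩ := h'.toEss.bd
  obtain ⟨n, hn⟩ := exists_nat_gt (((C + C') / L + x' - x) / (f a - a))
  rw [div_lt_iff₀ hpos] at hn
  have e3 : c (f^[n] x) = c' (f'^[n] x') := by rw [← iter_eq hf, ← iter_eq hf', he]
  have e4 := abs_le.1 (hC (f^[n] x))
  have e5 := abs_le.1 (hC' (f'^[n] x'))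
  rw [e3] at e4
  have e6 : (C + C') / L < f^[n] x - f'^[n] x' := by linarith [e1 n, e2 n]
  rw [div_lt_iff₀ hL] at e6
  linarith only [e4, e5, e6]

lemma Lf.conv (h : Lf g L c) (hL : 0 < L) (hg : Per g L) {a : ℝ} (ha : g (c a) = c a) (x : ℝ) :
    ∃ q, g q = q ∧ Tendsto (fun n => g^[n] (c x)) atTop (𝓝 q) := by
  obtain ⟨f, hc, hm, -, h1, hf⟩ := h.map hL hg
  have hfa : f a = a := h.inj (by rw [← hf, ha])
  have hfix : ∀ m : ℤ, ∀ n : ℕ, f^[n] (a + m) = a + m := fun m n =>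
    iterate_fixed (by rw [shift_int h1, hfa]) n
  have hup : ∀ n : ℕ, f^[n] x ≤ a + (⌈x - a⌉ : ℤ) := fun n => by
    rw [← hfix _ n]; exact hm.monotone.iterate n (by linarith [Int.le_ceil (x - a)])
  have hdn : ∀ n : ℕ, a + (⌊x - a⌋ : ℤ) ≤ f^[n] x := fun n => by
    rw [← hfix _ n]; exact hm.monotone.iterate n (by linarith [Int.floor_le (x - a)])
  obtain ⟨y, hy⟩ : ∃ y, Tendsto (fun n => f^[n] x) atTop (𝓝 y) := by
    rcases le_total x (f x) with hx | hx
    · exact ⟨_, tendsto_atTop_ciSup (hm.monotone.monotone_iterate_of_le_map hx)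
        ⟨_, by rintro _ ⟨n, rfl⟩; exact hup n⟩⟩
    · exact ⟨_, tendsto_atTop_ciInf (hm.monotone.antitone_iterate_of_map_le hx)
        ⟨_, by rintro _ ⟨n, rfl⟩; exact hdn n⟩⟩
  refine ⟨c y, by rw [hf, isFixedPt_of_tendsto_iterate hy hc.continuousAt], ?_⟩
  simp only [iter_eq hf]
  exact (h.cont.tendsto y).comp hy

/-- points of a closed set without fixed points whose orbit tends to a fixed point are null -/
lemma null_conv (μ : Measure (ℝ × ℝ)) [IsFiniteMeasureOnCompacts μ]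
    (hg : MeasurePreserving g μ μ) {D : Set (ℝ × ℝ)} (hD : IsClosed D) (hfix : ∀ q ∈ D, g q ≠ q) :
    μ {p ∈ D | ∃ q, g q = q ∧ Tendsto (fun n => g^[n] p) atTop (𝓝 q)} = 0 := by
  let E : ℕ → ℕ → Set (ℝ × ℝ) := fun R N =>
    D ∩ ((⋂ n : ℕ, g^[n] ⁻¹' Metric.closedBall 0 R) ∩ ⋂ n : ℕ, g^[n + N + 1] ⁻¹' Dᶜ)
  have hgm : ∀ n : ℕ, Measurable g^[n] := fun n => (g.continuous.iterate n).measurable
  have hE : ∀ R N, MeasurableSet (E R N) := fun R N => hD.measurableSet.inter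
    ((MeasurableSet.iInter fun n => hgm n Metric.isClosed_closedBall.measurableSet).inter
      (MeasurableSet.iInter fun n => hgm _ hD.measurableSet.compl))
  have hs : MeasurePreserving g.symm μ μ := MeasurePreserving.symm g.toMeasurableEquiv hg
  have hinv : ∀ n p, g^[n] (g.symm^[n] p) = p := fun n =>
    (show RightInverse g.symm g from g.apply_symm_apply).iterate n
  have h0 : ∀ R N, μ (E R N) = 0 := by
    intro R N
    by_contra hne
    let F : ℕ → Set (ℝ × ℝ) := fun j => g.symm^[j * (N + 1)] ⁻¹' E R N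
    have hF : ∀ j, MeasurableSet (F j) := fun j => (hs.iterate _).measurable (hE R N)
    have hd : Pairwise (Disjoint on F) := by
      refine (pairwise_disjoint_on F).2 fun i j hij => ?_
      refine Set.disjoint_left.2 fun p hi hj => ?_
      obtain ⟨k, rfl⟩ := Nat.exists_eq_add_of_lt hij
      have h1 := mem_iInter.1 hj.2.2 (k * (N + 1))
      apply h1
      have : (i + k + 1) * (N + 1) = (k * (N + 1) + N + 1) + i * (N + 1) := by ring
      rw [this, iterate_add_apply g.symm, hinv]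
      exact hi.1
    have h1 : μ (⋃ j, F j) ≤ μ (Metric.closedBall 0 R) := by
      refine measure_mono (iUnion_subset fun j p hp => ?_)
      have := mem_iInter.1 hp.2.1 (j * (N + 1))
      rwa [mem_preimage, hinv] at this
    rw [measure_iUnion hd hF] at h1
    have h2 : ∀ j, μ (F j) = μ (E R N) := fun j =>
      (hs.iterate _).measure_preimage (hE R N).nullMeasurableSet
    simp only [h2, ENNReal.tsum_const_eq_top_of_ne_zero hne] at h1
    exact (isCompact_closedBall (0 : ℝ × ℝ) R).measure_lt_top.not_ge h1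
  refine measure_mono_null (t := ⋃ R, ⋃ N, E R N) ?_
    (measure_iUnion_null fun R => measure_iUnion_null fun N => h0 R N)
  rintro p ⟨hp, q, hq, ht⟩
  obtain ⟨R, hR⟩ := (Metric.isBounded_range_of_tendsto _ ht).exists_norm_le
  obtain ⟨R', hR'⟩ := exists_nat_ge R
  obtain ⟨N, hN⟩ := eventually_atTop.1
    (ht.eventually (hD.isOpen_compl.mem_nhds fun h => hfix q h hq))
  refine mem_iUnion₂.2 ⟨R', N, hp, mem_iInter.2 fun n => ?_, mem_iInter.2 fun n => hN _ (by omega)⟩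
  simpa only [mem_preimage, Metric.mem_closedBall, dist_zero_right] using (hR _ ⟨n, rfl⟩).trans hR'

end Pool.Agent.MP_61130f_an

end

-- part MP_61130f_an.Top
section

/-! Free discs, low curves, and a fixed point on every vertical line. -/

namespace Pool.Agent.MP_61130f_an

open Set Filter Topology Function MeasureTheory

variable {g : ℝ × ℝ ≃ₜ ℝ × ℝ} {L : ℝ} {c c' : ℝ → ℝ × ℝ}

lemma free_core (h : Lf g L c) (h' : Lf g L c') (hL : 0 < L) (hg : Per g L) (hp : Plus g c)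
    (hm : Minus g c') {a b : ℝ} (ha : ∀ x, (c a).2 ≤ (c x).2) (ha' : ∀ x, (c a).2 ≤ (c' x).2)
    (hb : ∀ x, (c x).2 ≤ (c' b).2) (hb' : ∀ x, (c' x).2 ≤ (c' b).2) {D : Set (ℝ × ℝ)}
    (hD : Convex ℝ D) (hfree : ∀ p ∈ D, g p ∉ D) {x0 x0' : ℝ} (hx : c x0 ∈ D)
    (hx' : c' x0' ∈ D) : False := by
  have hdis := h.disj h' hL hg hp hm
  let σ : ℝ → ℝ × ℝ := fun t => c x0 + t • (c' x0' - c x0)
  have hσ : Continuous σ := by fun_prop
  have hσD : ∀ t ∈ Icc (0 : ℝ) 1, σ t ∈ D := fun t ht => hD.add_smul_sub_mem hx hx' ht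
  obtain ⟨t1, ⟨ht1, x, hx1⟩, hmax⟩ := (isCompact_Icc.inter_right
    ((h.toEss.closed hL).preimage hσ) : IsCompact (Icc 0 1 ∩ σ ⁻¹' range c)).exists_isGreatest
    ⟨0, by simp only [mem_Icc, Std.le_refl, zero_le_one, and_self], x0, by simp [σ]⟩
  obtain ⟨t2, ⟨ht2, x', hx2⟩, hmin⟩ := (isCompact_Icc.inter_right
    ((h'.toEss.closed hL).preimage hσ) : IsCompact (Icc t1 1 ∩ σ ⁻¹' range c')).exists_isLeast
    ⟨1, ⟨ht1.2, le_rfl⟩, x0', by simp [σ]⟩
  have hsub : ∀ t ∈ Icc t1 t2, t ∈ Icc (0 : ℝ) 1 := fun t ht =>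
    ⟨ht1.1.trans ht.1, ht.2.trans ht2.2⟩
  have hβ : IsPathConnected (σ '' Icc t1 t2) :=
    ((convex_Icc t1 t2).isPathConnected ⟨t1, le_rfl, ht2.1⟩).image hσ
  have hβ1 : c x ∈ σ '' Icc t1 t2 := ⟨t1, ⟨le_rfl, ht2.1⟩, hx1.symm⟩
  have hβ2 : c' x' ∈ σ '' Icc t1 t2 := ⟨t2, ⟨ht2.1, le_rfl⟩, hx2.symm⟩
  have hβD : ∀ p ∈ σ '' Icc t1 t2, p ∈ D := by
    rintro _ ⟨t, ht, rfl⟩; exact hσD t (hsub t ht)
  have hc1 : ∀ y, c y ∈ σ '' Icc t1 t2 → y = x := by
    rintro y ⟨t, ht, hy⟩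
    have : t = t1 := le_antisymm (hmax ⟨hsub t ht, y, hy.symm⟩) ht.1
    exact h.inj (by rw [← hy, this, hx1])
  have hc2 : ∀ y, c' y ∈ σ '' Icc t1 t2 → y = x' := by
    rintro y ⟨t, ht, hy⟩
    have : t = t2 := le_antisymm ht.2 (hmin ⟨⟨ht.1, (hsub t ht).2⟩, y, hy.symm⟩)
    exact h'.inj (by rw [← hy, this, hx2])
  obtain ⟨N, hN⟩ := (isCompact_Icc.image hσ : IsCompact (σ '' Icc t1 t2)).isBounded.exists_norm_le
  have hN' : ∀ p ∈ σ '' Icc t1 t2, |p.1| ≤ N := fun p hp => (norm_fst_le p).trans (hN p hp)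
  obtain ⟨y, hy, hy'⟩ := hp x
  obtain ⟨z, hz, hz'⟩ := hm x'
  obtain ⟨a1, ha1, ha2, ha3⟩ := h.toEss.far hL a (max y N)
  obtain ⟨b1, hb1, hb2, hb3⟩ := h'.toEss.far' hL b (min z (-N))
  have ha1 := (max_lt_iff.1 ha1).1
  have ha2 := (max_lt_iff.1 ha2).2
  have hb1 := (lt_min_iff.1 hb1).1
  have hb2 := (lt_min_iff.1 hb2).2
  have hA : IsPathConnected (c '' Iic x ∪ σ '' Icc t1 t2 ∪ c' '' Ici x') :=
    ((h.toEss.arc (convex_Iic x) nonempty_Iic).union hβ ⟨_, ⟨x, self_mem_Iic, rfl⟩, hβ1⟩).union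
      (h'.toEss.arc (convex_Ici x') nonempty_Ici) ⟨_, Or.inr hβ2, x', self_mem_Ici, rfl⟩
  have hB : IsPathConnected (c' '' Icc b1 z ∪ g '' (σ '' Icc t1 t2) ∪ c '' Icc y a1) :=
    ((h'.toEss.arc (convex_Icc _ _) (nonempty_Icc.2 hb1.le)).union (hβ.image g.continuous)
      ⟨_, ⟨z, ⟨hb1.le, le_rfl⟩, rfl⟩, _, hβ2, hz'⟩).union
      (h.toEss.arc (convex_Icc _ _) (nonempty_Icc.2 ha1.le))
      ⟨_, Or.inr ⟨_, hβ1, hy'⟩, y, ⟨le_rfl, ha1.le⟩, rfl⟩
  obtain ⟨p, hpA, hpB⟩ := cross hA hB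
    (fun M => by obtain ⟨q, h1, h2⟩ := h.toEss.left hL x M; exact ⟨q, Or.inl (Or.inl h1), h2⟩)
    (fun M => by obtain ⟨q, h1, h2⟩ := h'.toEss.right hL x' M; exact ⟨q, Or.inr h1, h2⟩)
    (z := c' b1) (w := c a1) (Or.inl (Or.inl ⟨b1, ⟨le_rfl, hb1.le⟩, rfl⟩))
    (Or.inr ⟨a1, ⟨ha1.le, le_rfl⟩, rfl⟩)
    (by
      rintro t ht ((⟨r, -, hr⟩ | hr) | ⟨r, -, hr⟩)
      · have := hb r; rw [hr, ← hb3] at this; exact absurd ht (not_lt.2 this)
      · have := (abs_le.1 (hN' _ hr)).1; exact absurd hb2 (not_lt.2 this)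
      · have := hb' r; rw [hr, ← hb3] at this; exact absurd ht (not_lt.2 this))
    (by
      rintro t ht ((⟨r, -, hr⟩ | hr) | ⟨r, -, hr⟩)
      · have := ha r; rw [hr, ← ha3] at this; exact absurd ht (not_lt.2 this)
      · have := (abs_le.1 (hN' _ hr)).2; exact absurd ha2 (not_lt.2 this)
      · have := ha' r; rw [hr, ← ha3] at this; exact absurd ht (not_lt.2 this))
  rcases hpB with (⟨r, hr, rfl⟩ | ⟨q, hq, rfl⟩) | ⟨r, hr, rfl⟩
  · rcases hpA with (⟨r', -, h1⟩ | h1) | ⟨r', hr', h1⟩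
    · exact hdis _ _ h1
    · have := hc2 _ h1; linarith [hr.2]
    · have := h'.inj h1; linarith only [hr.2, mem_Ici.1 hr', hz, this]
  · rcases hpA with (⟨r', hr', h1⟩ | h1) | ⟨r', hr', h1⟩
    · obtain ⟨r, rfl⟩ := h.back hL hg h1.symm
      rw [hc1 _ hq, hy', h.inj.eq_iff] at h1
      linarith [mem_Iic.1 hr']
    · exact hfree _ (hβD _ hq) (hβD _ h1)
    · obtain ⟨r, rfl⟩ := h'.back hL hg h1.symm
      rw [hc2 _ hq, hz', h'.inj.eq_iff] at h1
      linarith [mem_Ici.1 hr']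
  · rcases hpA with (⟨r', hr', h1⟩ | h1) | ⟨r', hr', h1⟩
    · have := h.inj h1; linarith [hr.1, mem_Iic.1 hr']
    · have := hc1 _ h1; linarith [hr.1]
    · exact hdis _ _ h1.symm

/-- a free convex set does not meet curves of opposite signs -/
lemma free_disc (h : Lf g L c) (h' : Lf g L c') (hL : 0 < L) (hg : Per g L) (hp : Plus g c)
    (hm : Minus g c') {D : Set (ℝ × ℝ)} (hD : Convex ℝ D) (hfree : ∀ p ∈ D, g p ∉ D)
    {x x' : ℝ} (hx : c x ∈ D) (hx' : c' x' ∈ D) : False := by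
  have hdis := h.disj h' hL hg hp hm
  obtain ⟨a, ha⟩ := h.toEss.low
  obtain ⟨b, hb⟩ := h.toEss.high
  obtain ⟨a', ha'⟩ := h'.toEss.low
  obtain ⟨b', hb'⟩ := h'.toEss.high
  rcases le_total (c a).2 (c' a').2 with h1 | h1 <;> rcases le_total (c b).2 (c' b').2 with h2 | h2
  · exact free_core h h' hL hg hp hm ha (fun x => h1.trans (ha' x)) (fun x => (hb x).trans h2) hb'
      hD hfree hx hx'
  · obtain ⟨u, v, huv⟩ := h.toEss.meet h'.toEss hL (fun x => h1.trans (ha' x))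
      (fun x => (hb' x).trans h2)
    exact hdis _ _ huv
  · obtain ⟨u, v, huv⟩ := h'.toEss.meet h.toEss hL (fun x => h1.trans (ha x))
      (fun x => (hb x).trans h2)
    exact hdis _ _ huv.symm
  · exact free_core (h'.symm hL hg) (h.symm hL hg) hL hg.symm (h'.minus_symm hL hg hm)
      (h.plus_symm hL hg hp) ha' (fun x => h1.trans (ha x)) (fun x => (hb' x).trans h2) hb
      hD (fun p hp hp' => hfree _ hp' (by simpa using hp)) hx' hx

/-- a curve that reaches the region where all points move to the right is not negative -/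
lemma low_leaf (h : Lf g L c) (hL : 0 < L) (hg : Per g L) {Y : ℝ}
    (hY : ∀ p : ℝ × ℝ, p.2 ≤ Y → p.1 < (g p).1)
    (hlow : ∀ s M, ∃ y ≤ M, (g (s, y)).2 < M) {x : ℝ} (hx : (c x).2 ≤ Y) : ¬ Minus g c := by
  intro hm
  obtain ⟨a, ha⟩ := h.toEss.low
  obtain ⟨b, hb⟩ := h.toEss.high
  obtain ⟨y, hy, hy'⟩ := hm a
  obtain ⟨e, he, he'⟩ := hlow (c a).1 (c a).2
  let V : Set (ℝ × ℝ) := {(c a).1} ×ˢ uIcc e (c a).2
  have hV : ∀ v ∈ V, v.1 = (c a).1 ∧ v.2 ≤ (c a).2 := fun v hv =>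
    ⟨hv.1, by have := hv.2; rw [uIcc_of_le he] at this; exact this.2⟩
  have hVr : ∀ v ∈ V, (c a).1 < (g v).1 := fun v hv => by
    rw [← (hV v hv).1]; exact hY v ((hV v hv).2.trans ((ha x).trans hx))
  have hVe : ((c a).1, e) ∈ V := ⟨rfl, left_mem_uIcc⟩
  obtain ⟨N, hN⟩ := ((isCompact_singleton.prod isCompact_uIcc).image g.continuous :
    IsCompact (g '' V)).isBounded.exists_norm_le
  obtain ⟨b1, hb1, hb2, hb3⟩ := h.toEss.far hL b (max a N)
  have hb1 := (max_lt_iff.1 hb1).1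
  have hb2 := (max_lt_iff.1 hb2).2
  set z := g ((c a).1, e) with hz
  have hA : IsPathConnected (c '' Iic y ∪ g '' V ∪ Ici z.1 ×ˢ {z.2}) :=
    ((h.toEss.arc (convex_Iic y) nonempty_Iic).union ((vseg_pc _ _ _).image g.continuous)
      ⟨_, ⟨y, self_mem_Iic, rfl⟩, c a, ⟨rfl, right_mem_uIcc⟩, hy'⟩).union
      (((convex_Ici _).prod (convex_singleton _)).isPathConnected ⟨z, self_mem_Ici, rfl⟩)
      ⟨z, Or.inr ⟨_, hVe, rfl⟩, self_mem_Ici, rfl⟩
  obtain ⟨p, hpA, r, hr, rfl⟩ := cross hA (h.toEss.arc (convex_Icc a b1) (nonempty_Icc.2 hb1.le))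
    (fun M => by obtain ⟨q, h1, h2⟩ := h.toEss.left hL y M; exact ⟨q, Or.inl (Or.inl h1), h2⟩)
    (fun M => ⟨(max M z.1, z.2), Or.inr ⟨mem_Ici.2 (le_max_right _ _), rfl⟩, le_max_left _ _⟩)
    (z := c b1) (w := c a) ⟨b1, ⟨hb1.le, le_rfl⟩, rfl⟩ ⟨a, ⟨le_rfl, hb1.le⟩, rfl⟩
    (by
      rintro t ht ((⟨r, -, hr⟩ | hr) | hr)
      · have := hb r; rw [hr, ← hb3] at this; exact absurd ht (not_lt.2 this)
      · have := (abs_le.1 ((norm_fst_le _).trans (hN _ hr))).2; exact absurd hb2 (not_lt.2 this)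
      · have h1 : t = z.2 := hr.2
        linarith [ha b1])
    (by
      rintro t ht ((⟨r, -, hr⟩ | ⟨v, hv, hr⟩) | hr)
      · have := ha r; rw [hr] at this; exact absurd ht (not_lt.2 this)
      · have := hVr v hv; rw [hr] at this; exact lt_irrefl _ this
      · have h1 : z.1 ≤ (c a).1 := hr.1
        exact absurd (hVr _ hVe) (not_lt.2 h1))
  rcases hpA with (⟨r', hr', h1⟩ | ⟨v, hv, h1⟩) | h1
  · have := h.inj h1; linarith only [hr.1, mem_Iic.1 hr', hy, this]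
  · obtain ⟨r', rfl⟩ := h.back hL hg h1
    have : c r' = c a := Prod.ext (hV _ hv).1 (le_antisymm (hV _ hv).2 (ha _))
    rw [this, hy', h.inj.eq_iff] at h1
    linarith [hr.1]
  · have h2 : (c r).2 = z.2 := h1.2
    linarith [ha r]

lemma exists_free {z : ℝ × ℝ} (hz : g z ≠ z) {U : Set (ℝ × ℝ)} (hU : U ∈ 𝓝 z) :
    ∃ r > 0, Metric.closedBall z r ⊆ U ∧
      ∀ p ∈ Metric.closedBall z r, g p ∉ Metric.closedBall z r := by
  obtain ⟨A, B, hA, hB, hzA, hzB, hAB⟩ := t2_separation hz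
  obtain ⟨r, hr, hsub⟩ := Metric.nhds_basis_closedBall.mem_iff.1
    (inter_mem hU (inter_mem (hB.mem_nhds hzB) ((hA.preimage g.continuous).mem_nhds hzA)))
  exact ⟨r, hr, fun p hp => (hsub hp).1, fun p hp hp' =>
    Set.disjoint_left.1 hAB (hsub hp).2.2 (hsub hp').2.1⟩

/-- fixed points and curves without fixed points are dense below the level `Y` -/
def Dns (g : ℝ × ℝ → ℝ × ℝ) (L Y : ℝ) : Prop :=
  ∀ O : Set (ℝ × ℝ), IsOpen O → O.Nonempty → (∀ p ∈ O, p.2 < Y) →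
    ∃ p ∈ O, g p = p ∨ ∃ c, Lf g L c ∧ p ∈ range c ∧ ∀ x, g (c x) ≠ c x

lemma dns_of_measure (hL : 0 < L) (hg : Per g L) (μ : Measure (ℝ × ℝ))
    [IsFiniteMeasureOnCompacts μ] (hμ : MeasurePreserving g μ μ) {Y : ℝ}
    (hd : ∀ O : Set (ℝ × ℝ), IsOpen O → O.Nonempty → (∀ p ∈ O, p.2 < Y) →
      μ {p ∈ O | ∃ c, Lf g L c ∧ p ∈ range c} ≠ 0) : Dns g L Y := by
  rintro O hO ⟨z, hz⟩ hY
  by_contra hcon
  push Not at hcon
  obtain ⟨r, hr, hsub, -⟩ := exists_free (hcon z hz).1 (hO.mem_nhds hz)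
  refine hd (Metric.ball z r) Metric.isOpen_ball ⟨z, Metric.mem_ball_self hr⟩
    (fun p hp => hY p (hsub (Metric.ball_subset_closedBall hp)))
    (measure_mono_null ?_ (null_conv μ hμ Metric.isClosed_closedBall
      fun q hq => (hcon q (hsub hq)).1))
  rintro _ ⟨hp, c, hc, x, rfl⟩
  have hp' := Metric.ball_subset_closedBall hp
  obtain ⟨a, ha⟩ := (hcon _ (hsub hp')).2 c hc ⟨x, rfl⟩
  exact ⟨hp', hc.conv hL hg ha x⟩

lemma vertical (hL : 0 < L) (hg : Per g L) {Y Y0 : ℝ}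
    (hY : ∀ p : ℝ × ℝ, p.2 ≤ Y → p.1 < (g p).1) (hlow : ∀ s M, ∃ y ≤ M, (g (s, y)).2 < M)
    (hd : Dns g L Y0) {D : Set (ℝ × ℝ)} (hD : Convex ℝ D) (hfree : ∀ p ∈ D, g p ∉ D)
    (h : Lf g L c) (hm : Minus g c) {x : ℝ} (hx : c x ∈ D) {s y0 : ℝ} (hy0 : y0 < Y0)
    (hs : D ∈ 𝓝 (s, y0)) : ∃ y, g (s, y) = (s, y) := by
  by_contra hcon
  push Not at hcon
  let A : Set (ℝ × ℝ) := closure {p | ∃ c, Lf g L c ∧ Plus g c ∧ p ∈ range c}
  let B : Set (ℝ × ℝ) := closure {p | ∃ c, Lf g L c ∧ Minus g c ∧ p ∈ range c}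
  have hW : IsPreconnected ({s} ×ˢ Iic y0 : Set (ℝ × ℝ)) :=
    ((convex_singleton s).prod (convex_Iic y0)).isPreconnected
  have hne : ∀ z ∈ ({s} ×ˢ Iic y0 : Set (ℝ × ℝ)), g z ≠ z := fun z hz => by
    rw [show z = (s, z.2) from Prod.ext hz.1 rfl]; exact hcon _
  have hcov : ({s} ×ˢ Iic y0 : Set (ℝ × ℝ)) ⊆ A ∪ B := by
    intro z hz
    rw [← closure_union, mem_closure_iff_nhds]
    intro U hU
    have hlt : {p : ℝ × ℝ | p.2 < Y0} ∈ 𝓝 z :=
      (isOpen_lt continuous_snd continuous_const).mem_nhds (lt_of_le_of_lt hz.2 hy0)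
    obtain ⟨r, hr, hsub, hf⟩ := exists_free (hne z hz) (inter_mem hU hlt)
    obtain ⟨p, hp, hp'⟩ := hd (Metric.ball z r) Metric.isOpen_ball ⟨z, Metric.mem_ball_self hr⟩
      (fun p hp => (hsub (Metric.ball_subset_closedBall hp)).2)
    have hp := Metric.ball_subset_closedBall hp
    rcases hp' with hp' | ⟨c, hc, hpc, hn⟩
    · exact absurd (hp'.symm ▸ hp) (hf p hp)
    · rcases hc.tri hL hg hn with h1 | h1
      · exact ⟨p, (hsub hp).1, Or.inl ⟨c, hc, h1, hpc⟩⟩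
      · exact ⟨p, (hsub hp).1, Or.inr ⟨c, hc, h1, hpc⟩⟩
  have hdisj : ({s} ×ˢ Iic y0 : Set (ℝ × ℝ)) ∩ (A ∩ B) = ∅ := by
    refine eq_empty_of_forall_notMem fun z ⟨hz, hA, hB⟩ => ?_
    obtain ⟨r, hr, -, hf⟩ := exists_free (hne z hz) univ_mem
    obtain ⟨_, hp, c1, hc1, h1, x1, rfl⟩ :=
      mem_closure_iff_nhds.1 hA _ (Metric.closedBall_mem_nhds z hr)
    obtain ⟨_, hq, c2, hc2, h2, x2, rfl⟩ :=
      mem_closure_iff_nhds.1 hB _ (Metric.closedBall_mem_nhds z hr)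
    exact free_disc hc1 hc2 hL hg h1 h2 (convex_closedBall z r) hf hp hq
  rcases isPreconnected_iff_subset_of_disjoint_closed.1 hW A B isClosed_closure isClosed_closure
    hcov hdisj with h1 | h1
  · obtain ⟨_, hp, c1, hc1, h1, x1, rfl⟩ :=
      mem_closure_iff_nhds.1 (h1 (⟨rfl, self_mem_Iic⟩ : (s, y0) ∈ {s} ×ˢ Iic y0)) _ hs
    exact free_disc hc1 h hL hg h1 hm hD hfree hp hx
  · have hlt : {p : ℝ × ℝ | p.2 < Y} ∈ 𝓝 (s, min y0 (Y - 1)) :=
      (isOpen_lt continuous_snd continuous_const).mem_nhds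
        (lt_of_le_of_lt (min_le_right _ _) (sub_one_lt Y))
    obtain ⟨_, hp, c1, hc1, h1, x1, rfl⟩ := mem_closure_iff_nhds.1
      (h1 (⟨rfl, mem_Iic.2 (min_le_left _ _)⟩ : (s, min y0 (Y - 1)) ∈ {s} ×ˢ Iic y0)) _ hlt
    exact low_leaf hc1 hL hg hY hlow (le_of_lt hp) h1

/-- `T` followed by a horizontal shift -/
def sh (T : ℝ × ℝ ≃ₜ ℝ × ℝ) (t : ℝ) : ℝ × ℝ ≃ₜ ℝ × ℝ := T.trans (Homeomorph.subRight (t, 0))

lemma sh_apply (T : ℝ × ℝ ≃ₜ ℝ × ℝ) (t : ℝ) (p : ℝ × ℝ) : sh T t p = T p - (t, 0) := rfl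

lemma Per.sh (hg : Per g L) (t : ℝ) : Per (sh g t) L := fun p => by
  rw [sh_apply, sh_apply, hg]; abel

lemma Per.int {f : ℝ × ℝ → ℝ × ℝ} (hg : Per f L) (p : ℝ × ℝ) (n : ℤ) :
    f (p + (n * L, 0)) = f p + (n * L, 0) := by
  have hp : Periodic (fun p => f p - p) (L, 0) := fun p => by simp only [hg p]; abel
  have := hp.zsmul n p
  simp only [Prod.smul_mk, zsmul_eq_mul, mul_zero] at this
  rw [sub_eq_iff_eq_add.1 this]; abel

lemma Lf.sh (h : Lf g L c) (n : ℤ) : Lf (sh g (n * L)) L c :=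
  ⟨h.toEss, h.inj, fun x => by
    obtain ⟨y, hy⟩ := h.fwd x
    refine ⟨y + (-n : ℤ), ?_⟩
    rw [sh_apply, hy, h.toEss.int]; ext <;> simp [sub_eq_add_neg]⟩

lemma Lf.unsh {n : ℤ} (h : Lf (MP_61130f_an.sh g (n * L)) L c) : Lf g L c :=
  ⟨h.toEss, h.inj, fun x => by
    obtain ⟨y, hy⟩ := h.fwd x
    refine ⟨y + n, ?_⟩
    rw [h.toEss.int, ← hy, sh_apply]; simp⟩

theorem top (hL : 0 < L) (hg : Per g L)
    (hlow : ∀ M, ∃ Y, ∀ p : ℝ × ℝ, p.2 ≤ Y → (g p).2 ≤ -M ∧ p.1 + M ≤ (g p).1) {Y0 : ℝ}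
    (hd : ∃ᶠ k : ℕ in atTop, Dns (sh g (k * L)) L Y0) :
    ∃ᶠ k : ℕ in atTop, ∀ s, ∃ y, g (s, y) = (s + k * L, y) := by
  let D : Set (ℝ × ℝ) := Icc (-1) (L + 1) ×ˢ Icc (Y0 - 3) (Y0 - 1)
  have hD : Convex ℝ D := (convex_Icc _ _).prod (convex_Icc _ _)
  obtain ⟨N, hN⟩ := ((isCompact_Icc.prod isCompact_Icc).image g.continuous :
    IsCompact (g '' D)).isBounded.exists_norm_le
  have hbig : ∀ C : ℝ, ∀ᶠ k : ℕ in atTop, C < k := fun C =>
    tendsto_natCast_atTop_atTop.eventually_gt_atTop C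
  have hfree : ∀ᶠ k : ℕ in atTop, ∀ p ∈ D, sh g (k * L) p ∉ D := by
    filter_upwards [hbig ((N + 1) / L)] with k hk p hp hp'
    rw [div_lt_iff₀ hL] at hk
    have h1 := (abs_le.1 ((norm_fst_le _).trans (hN _ ⟨p, hp, rfl⟩))).2
    have h2 : -1 ≤ (g p).1 - k * L := hp'.1.1
    linarith
  obtain ⟨k1, hk1, hk1'⟩ := (hd.and_eventually hfree).exists
  obtain ⟨p, hp, hp'⟩ := hk1 (Ioo (-1) (L + 1) ×ˢ Ioo (Y0 - 3) (Y0 - 1))
    (isOpen_Ioo.prod isOpen_Ioo) ⟨(0, Y0 - 2), ⟨by simp, by simp; linarith⟩,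
      by simp only [mem_Ioo, sub_lt_sub_iff_left, Nat.one_lt_ofNat, and_true]; norm_num⟩ (fun p hp => by linarith [hp.2.2])
  have hpD : p ∈ D := ⟨Ioo_subset_Icc_self hp.1, Ioo_subset_Icc_self hp.2⟩
  rcases hp' with hp' | ⟨c, hc, ⟨x, rfl⟩, -⟩
  · exact absurd (hp'.symm ▸ hpD) (hk1' p hpD)
  have hc : Lf g L c := Lf.unsh (n := k1) (by simpa using hc)
  obtain ⟨f, hfc, -, -, h1, hf⟩ := hc.map hL hg
  have hper : Periodic (fun x => f x - x) 1 := fun x => by simp [h1]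
  obtain ⟨C, hC⟩ := (hper.compact_of_continuous one_ne_zero (by fun_prop)).bddAbove
  refine (hd.and_eventually (hfree.and (hbig C))).mono fun k ⟨hk, hkf, hkC⟩ s => ?_
  have hm : Minus (sh g (k * L)) c := fun x => by
    refine ⟨f x + (-k : ℤ), by have := hC ⟨x, rfl⟩; push_cast; linarith, ?_⟩
    rw [sh_apply, hf, hc.toEss.int]; ext <;> simp [sub_eq_add_neg]
  obtain ⟨Y, hY⟩ := hlow (k * L + 1)
  have hs := toIcoMod_mem_Ico hL 0 s
  obtain ⟨y, hy⟩ := vertical hL (hg.sh (k * L)) (Y := Y)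
    (fun p hp => by have := (hY p hp).2; simp only [sh_apply, Prod.fst_sub]; linarith)
    (fun s M => by
      obtain ⟨Y', hY'⟩ := hlow (1 - M)
      refine ⟨min M Y', min_le_left _ _, ?_⟩
      have := (hY' (s, min M Y') (min_le_right _ _)).1
      simp only [sh_apply, Prod.snd_sub]; linarith)
    hk hD hkf (by simpa using hc.sh k) hm hpD (s := toIcoMod hL 0 s) (y0 := Y0 - 2) (by linarith)
    (prod_mem_nhds (Icc_mem_nhds (by linarith [hs.1]) (by linarith [hs.2]))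
      (Icc_mem_nhds (by linarith) (by linarith)))
  refine ⟨y, ?_⟩
  have e : (s, y) = (toIcoMod hL 0 s, y) + ((toIcoDiv hL 0 s : ℝ) * L, 0) := by
    ext
    · simp [← zsmul_eq_mul]
    · simp
  rw [sh_apply, sub_eq_iff_eq_add] at hy
  rw [e, hg.int, hy]
  have e1 := congrArg Prod.fst e
  ext
  · simp only [Prod.fst_add] at e1 ⊢; linarith
  · simp

end Pool.Agent.MP_61130f_an

end

-- part MP_61130f_an.Oval
section

/-! The billiard map of a strictly convex curve of class C^1 in the coordinates `(s, -cot α)`. -/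

namespace Pool.Agent.MP_61130f_an

open Set Filter Topology Function Complex ComplexConjugate

structure Ov (γ τ : ℝ → ℂ) (L : ℝ) : Prop where
  pos : 0 < L
  der : ∀ s, HasDerivAt γ (τ s) s
  cont : Continuous τ
  unit : ∀ s, ‖τ s‖ = 1
  per : Periodic γ L
  cvx : ∀ s u, s < u → u < s + L → 0 < ((γ u - γ s) * conj (τ s)).im

def rv (γ : ℝ → ℂ) : ℝ → ℂ := fun s => conj (γ (-s))

def rt (τ : ℝ → ℂ) : ℝ → ℂ := fun s => -conj (τ (-s))

@[simp] lemma rv_rv (γ : ℝ → ℂ) : rv (rv γ) = γ := by funext s; simp [rv]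

@[simp] lemma rt_rt (τ : ℝ → ℂ) : rt (rt τ) = τ := by funext s; simp only [rt, neg_neg, map_neg, RingHomCompTriple.comp_apply, RingHom.id_apply]

noncomputable def qq (γ τ : ℝ → ℂ) (s u : ℝ) : ℂ := (γ u - γ s) * conj (τ s)

noncomputable def YY (γ τ : ℝ → ℂ) (s u : ℝ) : ℝ := -(qq γ τ s u).re / (qq γ τ s u).im

noncomputable def UU (γ τ : ℝ → ℂ) (L s y : ℝ) : ℝ :=
  Classical.epsilon fun u => u ∈ Ioo s (s + L) ∧ YY γ τ s u = y

noncomputable def BB (γ τ : ℝ → ℂ) (L : ℝ) (p : ℝ × ℝ) : ℝ × ℝ :=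
  (UU γ τ L p.1 p.2, YY (rv γ) (rt τ) (-UU γ τ L p.1 p.2) (-p.1))

lemma qq_rv (γ τ : ℝ → ℂ) (s u : ℝ) : qq (rv γ) (rt τ) (-u) (-s) = conj (γ u - γ s) * τ u := by
  simp only [qq, rv, neg_neg, rt, map_neg, RingHomCompTriple.comp_apply, RingHom.id_apply, mul_neg, map_sub]; ring

namespace Ov

variable {γ τ : ℝ → ℂ} {L : ℝ}

lemma contg (h : Ov γ τ L) : Continuous γ :=
  continuous_iff_continuousAt.2 fun s => (h.der s).continuousAt

lemma pert (h : Ov γ τ L) : Periodic τ L := fun s => by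
  have h1 : HasDerivAt (fun x => γ (x + L)) (τ (s + L)) s := (h.der (s + L)).comp_add_const s L
  rw [show (fun x => γ (x + L)) = γ from funext h.per] at h1
  exact h1.unique (h.der s)

lemma mul_conj (h : Ov γ τ L) (s : ℝ) : τ s * conj (τ s) = 1 := by
  rw [Complex.mul_conj, Complex.normSq_eq_norm_sq, h.unit]; simp

lemma rev (h : Ov γ τ L) : Ov (rv γ) (rt τ) L where
  pos := h.pos
  der s := by
    have := ((h.der (-s)).scomp s (hasDerivAt_neg s)).star
    exact this.congr_deriv (by simp [rt])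
  cont := by have := h.cont; unfold rt; fun_prop
  unit s := by simp [rt, h.unit]
  per s := by simp only [rv]; rw [← h.per (-(s + L))]; simp
  cvx a b h1 h2 := by
    have := h.cvx (-a) (-b + L) (by linarith) (by linarith)
    rw [h.per] at this
    simp only [rv, rt, mul_im, sub_re, sub_im, conj_re, conj_im, neg_re, neg_im, map_neg,
      conj_conj] at this ⊢
    linarith

lemma im_pos (h : Ov γ τ L) {s u : ℝ} (hu : u ∈ Ioo s (s + L)) : 0 < (qq γ τ s u).im :=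
  h.cvx s u hu.1 hu.2

lemma im_pos' (h : Ov γ τ L) {s u : ℝ} (hu : u ∈ Ioo s (s + L)) :
    0 < (conj (γ u - γ s) * τ u).im := by
  rw [← qq_rv]; exact h.rev.im_pos ⟨by linarith [hu.1], by linarith [hu.2]⟩

lemma contq (h : Ov γ τ L) : Continuous fun p : ℝ × ℝ => qq γ τ p.1 p.2 := by
  have := h.cont; have := h.contg; unfold qq; fun_prop

lemma contY (h : Ov γ τ L) {p : ℝ × ℝ} (hu : p.2 ∈ Ioo p.1 (p.1 + L)) :
    ContinuousAt (fun p : ℝ × ℝ => YY γ τ p.1 p.2) p :=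
  ((continuous_re.comp h.contq).neg.continuousAt).div (continuous_im.comp h.contq).continuousAt
    (h.im_pos hu).ne'

lemma derY (h : Ov γ τ L) {s u : ℝ} (hu : u ∈ Ioo s (s + L)) :
    HasDerivAt (YY γ τ s) ((conj (γ u - γ s) * τ u).im / (qq γ τ s u).im ^ 2) u := by
  have hq : HasDerivAt (qq γ τ s) (τ u * conj (τ s)) u := ((h.der u).sub_const _).mul_const _
  have h1 := (reCLM.hasFDerivAt.comp_hasDerivAt u hq).neg.div
    (imCLM.hasFDerivAt.comp_hasDerivAt u hq) (h.im_pos hu).ne'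
  refine HasDerivAt.congr_deriv h1 ?_
  have e : conj (γ u - γ s) * τ u = conj (qq γ τ s u) * (τ u * conj (τ s)) := by
    simp only [qq, map_mul, conj_conj]; linear_combination (-conj (γ u - γ s) * τ u) * h.mul_conj s
  rw [e]
  simp only [mul_im (conj _), conj_re, conj_im, comp_apply, reCLM_apply, imCLM_apply, Pi.neg_apply]
  ring

lemma mono (h : Ov γ τ L) (s : ℝ) : StrictMonoOn (YY γ τ s) (Ioo s (s + L)) :=
  strictMonoOn_of_deriv_pos (convex_Ioo _ _)
    (fun _ hu => (h.derY hu).continuousAt.continuousWithinAt) fun u hu => by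
      rw [interior_Ioo] at hu
      rw [(h.derY hu).deriv]
      exact div_pos (h.im_pos' hu) (pow_pos (h.im_pos hu) 2)

lemma ev (h : Ov γ τ L) (s y : ℝ) :
    ∀ᶠ u in 𝓝[≠] s, 0 < (u - s) * ((qq γ τ s u).re + y * (qq γ τ s u).im) := by
  have h1 := (hasDerivAt_iff_tendsto_slope.1 (h.der s)).mul_const (conj (τ s))
  rw [h.mul_conj] at h1
  have h2 : Tendsto (fun u => (slope γ s u * conj (τ s)).re + y * (slope γ s u * conj (τ s)).im)
      (𝓝[≠] s) (𝓝 ((1 : ℂ).re + y * (1 : ℂ).im)) :=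
    ((continuous_re.tendsto _).comp h1).add (((continuous_im.tendsto _).comp h1).const_mul y)
  filter_upwards [h2.eventually_const_lt (show (0 : ℝ) < _ by simp), self_mem_nhdsWithin]
    with u hu hne
  have hne' : u - s ≠ 0 := sub_ne_zero.2 hne
  have e : qq γ τ s u = ((u - s : ℝ) : ℂ) * (slope γ s u * conj (τ s)) := by
    have := sub_smul_slope γ s u
    rw [vsub_eq_sub, real_smul] at this
    rw [qq, ← this, mul_assoc]
  rw [e, re_ofReal_mul, im_ofReal_mul]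
  have := mul_pos (mul_self_pos.2 hne') hu
  linarith

lemma surj (h : Ov γ τ L) (s y : ℝ) : ∃ u, u ∈ Ioo s (s + L) ∧ YY γ τ s u = y := by
  have hL := h.pos
  obtain ⟨a, ha, ha'⟩ := (((h.ev s y).filter_mono (nhdsGT_le_nhdsNE s)).and
    (Ioo_mem_nhdsGT (show s < s + L by linarith))).exists
  obtain ⟨b, hb, hb'⟩ := (((h.ev (s + L) y).filter_mono (nhdsLT_le_nhdsNE _)).and
    (Ioo_mem_nhdsLT (show s < s + L by linarith))).exists
  have e : qq γ τ (s + L) b = qq γ τ s b := by simp only [qq]; rw [h.per, h.pert]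
  rw [e] at hb
  have h1 : YY γ τ s a ≤ y := by
    rw [YY, div_le_iff₀ (h.im_pos ha')]
    linarith only [(mul_pos_iff_of_pos_left (sub_pos.2 ha'.1)).1 ha]
  have h2 : y ≤ YY γ τ s b := by
    rw [YY, le_div_iff₀ (h.im_pos hb')]
    linarith only [neg_of_mul_pos_right hb (sub_neg.2 hb'.2).le]
  exact isPreconnected_Ioo.intermediate_value ha' hb'
    (fun _ hu => (h.derY hu).continuousAt.continuousWithinAt) ⟨h1, h2⟩

lemma U_mem (h : Ov γ τ L) (s y : ℝ) : UU γ τ L s y ∈ Ioo s (s + L) :=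
  (Classical.epsilon_spec (h.surj s y)).1

lemma YU (h : Ov γ τ L) (s y : ℝ) : YY γ τ s (UU γ τ L s y) = y :=
  (Classical.epsilon_spec (h.surj s y)).2

lemma UY (h : Ov γ τ L) {s u : ℝ} (hu : u ∈ Ioo s (s + L)) : UU γ τ L s (YY γ τ s u) = u :=
  (h.mono s).injOn (h.U_mem _ _) hu (h.YU _ _)

lemma U_lt (h : Ov γ τ L) {s u y : ℝ} (hu : u ∈ Ioo s (s + L)) :
    UU γ τ L s y < u ↔ y < YY γ τ s u := by
  rw [← (h.mono s).lt_iff_lt (h.U_mem s y) hu, h.YU]

lemma lt_U (h : Ov γ τ L) {s u y : ℝ} (hu : u ∈ Ioo s (s + L)) :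
    u < UU γ τ L s y ↔ YY γ τ s u < y := by
  rw [← (h.mono s).lt_iff_lt hu (h.U_mem s y), h.YU]

lemma contU (h : Ov γ τ L) : Continuous fun p : ℝ × ℝ => UU γ τ L p.1 p.2 := by
  have key : ∀ (p : ℝ × ℝ) (u : ℝ), u ∈ Ioo p.1 (p.1 + L) →
      (∀ᶠ q : ℝ × ℝ in 𝓝 p, u ∈ Ioo q.1 (q.1 + L)) ∧
      Tendsto (fun q : ℝ × ℝ => YY γ τ q.1 u) (𝓝 p) (𝓝 (YY γ τ p.1 u)) := fun p u hu =>
    ⟨(continuous_fst.continuousAt.eventually_lt continuousAt_const hu.1).and
      (continuousAt_const.eventually_lt (by fun_prop) hu.2),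
      ContinuousAt.comp (g := fun p : ℝ × ℝ => YY γ τ p.1 p.2) (f := fun q : ℝ × ℝ => (q.1, u))
        (h.contY hu) (by fun_prop)⟩
  refine continuous_iff_continuousAt.2 fun p => tendsto_order.2 ⟨fun a ha => ?_, fun a ha => ?_⟩
  · obtain ⟨u, h1, h2⟩ := exists_between (max_lt ha (h.U_mem p.1 p.2).1)
    have hu : u ∈ Ioo p.1 (p.1 + L) := ⟨(max_lt_iff.1 h1).2, h2.trans (h.U_mem p.1 p.2).2⟩
    obtain ⟨k1, k2⟩ := key p u hu
    filter_upwards [k1, k2.eventually_lt continuous_snd.continuousAt ((h.lt_U hu).1 h2)]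
      with q hq hq'
    exact (max_lt_iff.1 h1).1.trans ((h.lt_U hq).2 hq')
  · obtain ⟨u, h1, h2⟩ := exists_between (lt_min ha (h.U_mem p.1 p.2).2)
    have hu : u ∈ Ioo p.1 (p.1 + L) := ⟨(h.U_mem p.1 p.2).1.trans h1, (lt_min_iff.1 h2).2⟩
    obtain ⟨k1, k2⟩ := key p u hu
    filter_upwards [k1, Tendsto.eventually_lt continuous_snd.continuousAt k2 ((h.U_lt hu).1 h1)]
      with q hq hq'
    exact ((h.U_lt hq).2 hq').trans (lt_min_iff.1 h2).1

lemma Y_per (h : Ov γ τ L) (s u : ℝ) : YY γ τ (s + L) (u + L) = YY γ τ s u := by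
  simp only [YY, qq]; rw [h.per, h.per, h.pert]

lemma U_per (h : Ov γ τ L) (s y : ℝ) : UU γ τ L (s + L) y = UU γ τ L s y + L := by
  have := h.U_mem s y
  rw [← h.UY (s := s + L) (u := UU γ τ L s y + L) ⟨by linarith [this.1], by linarith [this.2]⟩,
    h.Y_per, h.YU]

lemma neg_mem {s u : ℝ} (hu : u ∈ Ioo s (s + L)) : -s ∈ Ioo (-u) (-u + L) :=
  ⟨by linarith [hu.1], by linarith [hu.2]⟩

lemma contB (h : Ov γ τ L) : Continuous (BB γ τ L) := by
  refine h.contU.prodMk (continuous_iff_continuousAt.2 fun p => ?_)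
  exact ContinuousAt.comp (g := fun p : ℝ × ℝ => YY (rv γ) (rt τ) p.1 p.2)
    (f := fun q : ℝ × ℝ => (-UU γ τ L q.1 q.2, -q.1)) (h.rev.contY (neg_mem (h.U_mem _ _)))
    (h.contU.neg.prodMk continuous_fst.neg).continuousAt

lemma B_per (h : Ov γ τ L) (p : ℝ × ℝ) : BB γ τ L (p + (L, 0)) = BB γ τ L p + (L, 0) := by
  simp only [BB, Prod.fst_add, Prod.snd_add, add_zero, h.U_per, Prod.mk_add_mk]
  rw [← h.rev.Y_per]; simp

lemma B_inv (h : Ov γ τ L) (p : ℝ × ℝ) :
    BB (rv γ) (rt τ) L (-(BB γ τ L p).1, (BB γ τ L p).2) = (-p.1, p.2) := by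
  simp only [BB, h.rev.UY (neg_mem (h.U_mem _ _)), rv_rv, rt_rt, neg_neg, h.YU]

/-- the coin map in the coordinates `(s, -cot α)` -/
noncomputable def TT (h : Ov γ τ L) (d : ℝ) : ℝ × ℝ ≃ₜ ℝ × ℝ where
  toFun p := ((BB γ τ L p).1 - d * (BB γ τ L p).2, (BB γ τ L p).2)
  invFun p := (-(BB (rv γ) (rt τ) L (-(p.1 + d * p.2), p.2)).1,
    (BB (rv γ) (rt τ) L (-(p.1 + d * p.2), p.2)).2)
  left_inv p := by simp only [sub_add_cancel, h.B_inv, neg_neg]
  right_inv p := by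
    have := h.rev.B_inv (-(p.1 + d * p.2), p.2)
    rw [rv_rv, rt_rt] at this
    simp only [this, neg_neg, add_sub_cancel_right]
  continuous_toFun := (h.contB.fst.sub (continuous_const.mul h.contB.snd)).prodMk h.contB.snd
  continuous_invFun := by
    have := h.rev.contB.comp (f := fun p : ℝ × ℝ => (-(p.1 + d * p.2), p.2)) (by fun_prop)
    exact this.fst.neg.prodMk this.snd

lemma TT_apply (h : Ov γ τ L) (d : ℝ) (p : ℝ × ℝ) :
    h.TT d p = ((BB γ τ L p).1 - d * (BB γ τ L p).2, (BB γ τ L p).2) := rfl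

lemma TT_per (h : Ov γ τ L) (d : ℝ) (p : ℝ × ℝ) : h.TT d (p + (L, 0)) = h.TT d p + (L, 0) := by
  simp only [TT_apply, h.B_per]; ext <;> simp; ring

lemma lowB (h : Ov γ τ L) (M : ℝ) : ∃ Y, ∀ p : ℝ × ℝ, p.2 ≤ Y → (BB γ τ L p).2 ≤ M := by
  have hp : Periodic (fun a => UU (rv γ) (rt τ) L a M - a) L := fun a => by
    simp only [h.rev.U_per]; ring
  obtain ⟨_, ⟨a, rfl⟩, ha⟩ := (hp.compact_of_continuous h.pos.ne'
    ((h.rev.contU.comp (f := fun a : ℝ => (a, M)) (by fun_prop)).sub continuous_id)).exists_isLeast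
    (range_nonempty _)
  set η := UU (rv γ) (rt τ) L a M - a with hη
  have hη' : ∀ s, s + η ∈ Ioo s (s + L) := fun s =>
    ⟨by linarith [(h.rev.U_mem a M).1], by linarith [(h.rev.U_mem a M).2]⟩
  have hp' : Periodic (fun s => YY γ τ s (s + η)) L := fun s => by
    simp only [add_right_comm s L, h.Y_per]
  obtain ⟨Y, hY⟩ := (hp'.compact_of_continuous h.pos.ne' (continuous_iff_continuousAt.2 fun s =>
    ContinuousAt.comp (g := fun p : ℝ × ℝ => YY γ τ p.1 p.2) (f := fun s : ℝ => (s, s + η))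
      (h.contY (hη' s)) (by fun_prop))).bddBelow
  refine ⟨Y, fun p hp => ?_⟩
  have h1 : UU γ τ L p.1 p.2 ≤ p.1 + η :=
    not_lt.1 fun hh => absurd ((h.lt_U (hη' _)).1 hh) (not_lt.2 (hp.trans (hY ⟨_, rfl⟩)))
  have h2 : η ≤ UU (rv γ) (rt τ) L (-UU γ τ L p.1 p.2) M - -UU γ τ L p.1 p.2 := ha ⟨_, rfl⟩
  exact not_lt.1 fun hh => absurd ((h.rev.U_lt (neg_mem (h.U_mem _ _))).2 hh)
    (not_lt.2 (by linarith))

lemma lowT (h : Ov γ τ L) {d : ℝ} (hd : 0 < d) (M : ℝ) :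
    ∃ Y, ∀ p : ℝ × ℝ, p.2 ≤ Y → (h.TT d p).2 ≤ -M ∧ p.1 + M ≤ (h.TT d p).1 := by
  obtain ⟨Y, hY⟩ := h.lowB (min (-M) (-M / d))
  refine ⟨Y, fun p hp => ⟨(hY p hp).trans (min_le_left _ _), ?_⟩⟩
  have h1 := (hY p hp).trans (min_le_right _ _)
  rw [le_div_iff₀ hd] at h1
  have h2 : p.1 < (BB γ τ L p).1 := (h.U_mem _ _).1
  simp only [TT_apply]
  linarith

end Ov

end Pool.Agent.MP_61130f_an

end

-- part MP_61130f_an.Meas
section

/-! The coin map preserves the measure `sin α dα ds`. -/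

namespace Pool.Agent.MP_61130f_an

open Set Filter Topology Function Complex ComplexConjugate MeasureTheory ENNReal

noncomputable def rho (y : ℝ) : ℝ := 1 / ((1 + y ^ 2) * √(1 + y ^ 2))

lemma rho_pos (y : ℝ) : 0 < rho y := by unfold rho; positivity

lemma rho_cont : Continuous rho :=
  continuous_const.div (by fun_prop) fun y => by positivity

noncomputable def nu : Measure ℝ := volume.withDensity fun y => ENNReal.ofReal (rho y)

instance : IsLocallyFiniteMeasure nu := IsLocallyFiniteMeasure.withDensity_ofReal rho_cont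

noncomputable def mu : Measure (ℝ × ℝ) := volume.prod nu

instance : IsFiniteMeasureOnCompacts mu := by unfold mu; infer_instance

lemma mu_null {S : Set (ℝ × ℝ)} (h : mu S = 0) : volume S = 0 :=
  (Measure.AbsolutelyContinuous.rfl.prod (withDensity_absolutelyContinuous'
    rho_cont.measurable.ennreal_ofReal.aemeasurable
    (ae_of_all _ fun y => by simpa using rho_pos y))) h

lemma mp_of_lintegral {f : ℝ × ℝ → ℝ × ℝ} (hf : Measurable f)
    (h : ∀ φ : ℝ × ℝ → ℝ≥0∞, Measurable φ → ∫⁻ p, φ (f p) ∂mu = ∫⁻ p, φ p ∂mu) :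
    MeasurePreserving f mu mu :=
  ⟨hf, Measure.ext fun A hA => by
    rw [← lintegral_indicator_one hA, ← lintegral_indicator_one hA,
      lintegral_map (measurable_one.indicator hA) hf, h _ (measurable_one.indicator hA)]⟩

lemma mp_shear (d t : ℝ) : MeasurePreserving (fun p : ℝ × ℝ => (p.1 - (d * p.2 + t), p.2)) mu mu := by
  refine mp_of_lintegral (by fun_prop) fun φ hφ => ?_
  unfold mu
  rw [lintegral_prod_symm _ (by fun_prop), lintegral_prod_symm _ hφ.aemeasurable]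
  exact lintegral_congr fun y => lintegral_sub_right_eq_self (fun s => φ (s, y)) (d * y + t)

noncomputable def ww (γ τ : ℝ → ℂ) (s u : ℝ) : ℝ :=
  (qq γ τ s u).im * (qq (rv γ) (rt τ) (-u) (-s)).im / ‖γ u - γ s‖ ^ 3

lemma ww_rv (γ τ : ℝ → ℂ) (s u : ℝ) : ww (rv γ) (rt τ) (-u) (-s) = ww γ τ s u := by
  simp only [ww, rv_rv, rt_rt, neg_neg, rv, ← map_sub, norm_conj, norm_sub_rev (γ s), mul_comm]

def XX (L : ℝ) : Set (ℝ × ℝ) := {p | p.2 ∈ Ioo p.1 (p.1 + L)}

lemma XX_meas (L : ℝ) : MeasurableSet (XX L) :=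
  ((isOpen_lt continuous_fst continuous_snd).inter
    (isOpen_lt continuous_snd (by fun_prop))).measurableSet

namespace Ov

variable {γ τ : ℝ → ℂ} {L : ℝ}

lemma measY (h : Ov γ τ L) : Measurable fun p : ℝ × ℝ => YY γ τ p.1 p.2 :=
  (continuous_re.comp h.contq).neg.measurable.div (continuous_im.comp h.contq).measurable

lemma measw (h : Ov γ τ L) : Measurable fun p : ℝ × ℝ => ww γ τ p.1 p.2 := by
  have h1 := h.rev.contq.comp (f := fun p : ℝ × ℝ => (-p.2, -p.1)) (by fun_prop)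
  have := h.contg
  exact ((continuous_im.comp h.contq).mul (continuous_im.comp h1)).measurable.div
    (Continuous.measurable (by fun_prop))

lemma normq (h : Ov γ τ L) (s u : ℝ) : ‖qq γ τ s u‖ = ‖γ u - γ s‖ := by simp [qq, h.unit]

lemma dens (h : Ov γ τ L) {s u : ℝ} (hu : u ∈ Ioo s (s + L)) :
    |(conj (γ u - γ s) * τ u).im / (qq γ τ s u).im ^ 2| * rho (YY γ τ s u) = ww γ τ s u := by
  have hb := h.im_pos hu
  have hl : 0 < ‖qq γ τ s u‖ := norm_pos_iff.2 fun h0 => by simp [h0] at hb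
  have e : 1 + YY γ τ s u ^ 2 = (‖qq γ τ s u‖ / (qq γ τ s u).im) ^ 2 := by
    rw [YY, div_pow, div_pow, Complex.sq_norm, normSq_apply]; field_simp; ring
  rw [abs_of_pos (div_pos (h.im_pos' hu) (pow_pos hb 2)), rho, e, Real.sqrt_sq (div_pos hl hb).le,
    ww, qq_rv, ← h.normq]
  field_simp

lemma meas_int (h : Ov γ τ L) {φ : ℝ × ℝ → ℝ≥0∞} (hφ : Measurable φ) :
    Measurable ((XX L).indicator
      fun p : ℝ × ℝ => ENNReal.ofReal (ww γ τ p.1 p.2) * φ (p.1, YY γ τ p.1 p.2)) :=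
  (h.measw.ennreal_ofReal.mul (hφ.comp (measurable_fst.prodMk h.measY))).indicator (XX_meas L)

lemma chart (h : Ov γ τ L) {φ : ℝ × ℝ → ℝ≥0∞} (hφ : Measurable φ) :
    ∫⁻ p, φ p ∂mu = ∫⁻ p, (XX L).indicator
      (fun p : ℝ × ℝ => ENNReal.ofReal (ww γ τ p.1 p.2) * φ (p.1, YY γ τ p.1 p.2)) p
      ∂(volume.prod volume) := by
  rw [mu, lintegral_prod _ hφ.aemeasurable, lintegral_prod _ (h.meas_int hφ).aemeasurable]
  refine lintegral_congr fun s => ?_
  have him : YY γ τ s '' Ioo s (s + L) = univ := eq_univ_of_forall fun y => h.surj s y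
  have h1 := lintegral_image_eq_lintegral_abs_deriv_mul measurableSet_Ioo
    (fun u hu => (h.derY hu).hasDerivWithinAt) (h.mono s).injOn
    (fun y => ENNReal.ofReal (rho y) * φ (s, y))
  rw [him, Measure.restrict_univ] at h1
  rw [nu, lintegral_withDensity_eq_lintegral_mul _ rho_cont.measurable.ennreal_ofReal
    (by fun_prop)]
  refine h1.trans ?_
  rw [← lintegral_indicator measurableSet_Ioo]
  refine lintegral_congr fun u => ?_
  by_cases hu : u ∈ Ioo s (s + L)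
  · rw [indicator_of_mem hu, indicator_of_mem (show (s, u) ∈ XX L from hu), ← mul_assoc,
      ← ENNReal.ofReal_mul (abs_nonneg _), h.dens hu]
  · rw [indicator_of_notMem hu, indicator_of_notMem (show (s, u) ∉ XX L from hu)]

lemma mpB (h : Ov γ τ L) : MeasurePreserving (BB γ τ L) mu mu := by
  refine mp_of_lintegral h.contB.measurable fun φ hφ => ?_
  have hneg : MeasurePreserving (fun p : ℝ × ℝ => (-p.1, p.2)) mu mu :=
    (Measure.measurePreserving_neg volume).prod (MeasurePreserving.id nu)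
  have hsw : MeasurePreserving (fun p : ℝ × ℝ => (-p.2, -p.1)) (volume.prod volume)
      (volume.prod volume) :=
    ((Measure.measurePreserving_neg volume).prod (Measure.measurePreserving_neg volume)).comp
      Measure.measurePreserving_swap
  have hφ' : Measurable fun p : ℝ × ℝ => φ (-p.1, p.2) := hφ.comp hneg.measurable
  rw [← hneg.lintegral_comp hφ, h.rev.chart hφ', ← hsw.lintegral_comp (h.rev.meas_int hφ'),
    h.chart (φ := fun p => φ (BB γ τ L p)) (hφ.comp h.contB.measurable)]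
  refine lintegral_congr fun p => ?_
  by_cases hp : p ∈ XX L
  · rw [indicator_of_mem hp, indicator_of_mem (show (-p.2, -p.1) ∈ XX L from neg_mem hp)]
    simp only [ww_rv, BB, h.UY hp, neg_neg]
  · rw [indicator_of_notMem hp, indicator_of_notMem]
    exact fun hp' => hp (by simpa only [XX, mem_Ioo, mem_ofPred_eq, neg_neg] using neg_mem hp')

lemma mpT (h : Ov γ τ L) (d t : ℝ) : MeasurePreserving (fun p => h.TT d p - (t, 0)) mu mu := by
  convert (mp_shear d t).comp h.mpB using 1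
  funext p
  simp only [TT_apply, comp_apply, Prod.mk_sub_mk, sub_zero, sub_sub]

end Ov

end Pool.Agent.MP_61130f_an

end

-- part MP_61130f_an.Aff
section

/-! A monotone function with many almost symmetric balanced windows is affine. -/

namespace Pool.Agent.MP_61130f_an

open Set Filter Topology Function Real intervalIntegral

noncomputable def GG (σ : ℝ → ℝ) (ψ a : ℝ) : ℝ :=
  (σ (ψ + 2 * a) + σ ψ) * sin a - ∫ φ in ψ..ψ + 2 * a, σ φ * cos (φ - (ψ + a))

variable {σ : ℝ → ℝ}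

lemma int_cos0 (ψ a : ℝ) : ∫ φ in ψ..ψ + 2 * a, cos (φ - (ψ + a)) = 2 * sin a := by
  rw [integral_comp_sub_right (fun x => cos x), integral_cos]
  rw [show ψ + 2 * a - (ψ + a) = a by ring, show ψ - (ψ + a) = -a by ring, sin_neg]; ring

lemma GG_eq (hc : Continuous σ) (ψ a : ℝ) : GG σ ψ a = (σ (ψ + 2 * a) - σ ψ) * sin a -
    ∫ φ in ψ..ψ + 2 * a, (σ φ - σ ψ) * cos (φ - (ψ + a)) := by
  simp only [GG, sub_mul]
  rw [integral_sub (Continuous.intervalIntegrable (by fun_prop) _ _)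
    (Continuous.intervalIntegrable (by fun_prop) _ _), integral_const_mul, int_cos0]
  ring

lemma GG_le (hc : Continuous σ) (hm : Monotone σ) {ψ a α δ : ℝ} (ha : 0 < a) (h1 : a ≤ α)
    (h2 : α ≤ a + δ) (h3 : δ ≤ a) (h4 : a ≤ 1 / 2) (h0 : GG σ ψ α = 0) :
    GG σ ψ a ≤ 4 * δ * (σ (ψ + 4 * a) - σ ψ) := by
  rw [GG_eq hc] at h0 ⊢
  set F := σ (ψ + 4 * a) - σ ψ with hF
  have hf : ∀ φ ∈ Icc ψ (ψ + 4 * a), 0 ≤ σ φ - σ ψ ∧ σ φ - σ ψ ≤ F := fun φ hφ =>
    ⟨sub_nonneg.2 (hm hφ.1), sub_le_sub_right (hm hφ.2) _⟩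
  have hF0 : 0 ≤ F := sub_nonneg.2 (hm (by linarith only [ha]))
  have e1 : (σ (ψ + 2 * a) - σ ψ) * sin a ≤ (σ (ψ + 2 * α) - σ ψ) * sin α := by
    have := pi_gt_three
    refine mul_le_mul (sub_le_sub_right (hm (by linarith only [h1])) _)
      (sin_le_sin_of_le_of_le_pi_div_two (by linarith) (by linarith) h1)
      (sin_nonneg_of_nonneg_of_le_pi ha.le (by linarith)) (sub_nonneg.2 (hm (by linarith only [ha, h1])))
  have hi : ∀ b x y : ℝ, IntervalIntegrable (fun φ => (σ φ - σ ψ) * cos (φ - b))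
      MeasureTheory.volume x y := fun b x y => Continuous.intervalIntegrable (by fun_prop) _ _
  rw [← integral_add_adjacent_intervals (hi _ ψ (ψ + 2 * a)) (hi _ _ _)] at h0
  have e2 : ∫ φ in ψ + 2 * a..ψ + 2 * α, (σ φ - σ ψ) * cos (φ - (ψ + α)) ≤
      ∫ φ in ψ + 2 * a..ψ + 2 * α, F := by
    refine integral_mono_on (by linarith only [h1]) (hi _ _ _) (by simp) fun φ hφ => ?_
    obtain ⟨k1, k2⟩ := hf φ ⟨by linarith only [hφ.1, ha], by linarith only [hφ.2, h2, h3]⟩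
    nlinarith only [cos_le_one (φ - (ψ + α)), k1, k2]
  have e3 : ∫ φ in ψ..ψ + 2 * a, (σ φ - σ ψ) * cos (φ - (ψ + α)) ≤
      ∫ φ in ψ..ψ + 2 * a, ((σ φ - σ ψ) * cos (φ - (ψ + a)) + F * δ) := by
    refine integral_mono_on (by linarith only [ha]) (hi _ _ _) ((hi _ _ _).add (by simp)) fun φ hφ => ?_
    obtain ⟨k1, k2⟩ := hf φ ⟨hφ.1, by linarith only [hφ.2, ha]⟩
    have k3 := (abs_le.1 (abs_cos_sub_cos_le (φ - (ψ + α)) (φ - (ψ + a)))).2
    rw [show φ - (ψ + α) - (φ - (ψ + a)) = -(α - a) by ring, abs_neg,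
      abs_of_nonneg (sub_nonneg.2 h1)] at k3
    nlinarith only [h1, h2, k1, k2, k3]
  rw [integral_add (hi _ _ _) (by simp)] at e3
  simp only [intervalIntegral.integral_const, smul_eq_mul] at e2 e3
  nlinarith only [mul_nonneg hF0 (show 0 ≤ δ by linarith only [h1, h2]), mul_nonneg hF0 (sub_nonneg.2 h2), h4, h0, e1, e2, e3]

noncomputable def Pr (f : ℝ → ℝ) (t : ℝ) : ℝ := ∫ x in (0 : ℝ)..t, f x

lemma Pr_der {f : ℝ → ℝ} (hf : Continuous f) (t b : ℝ) :
    HasDerivAt (fun x => Pr f (x + b)) (f (t + b)) t :=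
  (hf.integral_hasStrictDerivAt 0 (t + b)).hasDerivAt.comp_add_const t b

lemma Pr_der0 {f : ℝ → ℝ} (hf : Continuous f) (t : ℝ) : HasDerivAt (Pr f) (f t) t :=
  (hf.integral_hasStrictDerivAt 0 t).hasDerivAt

lemma Pr_sub {f : ℝ → ℝ} (hf : Continuous f) (a b : ℝ) : Pr f b - Pr f a = ∫ x in a..b, f x :=
  integral_interval_sub_left (hf.intervalIntegrable _ _) (hf.intervalIntegrable _ _)

lemma int_cos (hc : Continuous σ) (x y c : ℝ) : ∫ φ in x..y, σ φ * cos (φ - c) =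
    cos c * (Pr (fun φ => σ φ * cos φ) y - Pr (fun φ => σ φ * cos φ) x) +
    sin c * (Pr (fun φ => σ φ * sin φ) y - Pr (fun φ => σ φ * sin φ) x) := by
  rw [Pr_sub (by fun_prop), Pr_sub (by fun_prop), ← integral_const_mul, ← integral_const_mul,
    ← integral_add (Continuous.intervalIntegrable (by fun_prop) _ _)
      (Continuous.intervalIntegrable (by fun_prop) _ _)]
  exact integral_congr fun φ _ => by simp only [cos_sub]; ring

noncomputable def HH (σ : ℝ → ℝ) (a ψ : ℝ) : ℝ :=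
  -sin (ψ + a) * (Pr (fun φ => σ φ * cos φ) (ψ + 2 * a) - Pr (fun φ => σ φ * cos φ) ψ) +
    cos (ψ + a) * (Pr (fun φ => σ φ * sin φ) (ψ + 2 * a) - Pr (fun φ => σ φ * sin φ) ψ)

noncomputable def KK (σ : ℝ → ℝ) (a ψ : ℝ) : ℝ :=
  cos (ψ + a) * (Pr (fun φ => σ φ * cos φ) (ψ + 2 * a) - Pr (fun φ => σ φ * cos φ) ψ) +
    sin (ψ + a) * (Pr (fun φ => σ φ * sin φ) (ψ + 2 * a) - Pr (fun φ => σ φ * sin φ) ψ) -
    cos a * (Pr σ (ψ + 2 * a) - Pr σ ψ)

lemma trig (ψ a : ℝ) : cos (ψ + 2 * a) = cos (ψ + a) * cos a - sin (ψ + a) * sin a ∧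
    sin (ψ + 2 * a) = sin (ψ + a) * cos a + cos (ψ + a) * sin a ∧
    cos ψ = cos (ψ + a) * cos a + sin (ψ + a) * sin a ∧
    sin ψ = sin (ψ + a) * cos a - cos (ψ + a) * sin a := by
  rw [← cos_add, ← sin_add, ← cos_sub, ← sin_sub, show ψ + a + a = ψ + 2 * a by ring,
    add_sub_cancel_right]
  simp

lemma HH_der (hc : Continuous σ) (a ψ : ℝ) : HasDerivAt (HH σ a) (GG σ ψ a) ψ := by
  have c1 : Continuous fun φ => σ φ * cos φ := by fun_prop
  have c2 : Continuous fun φ => σ φ * sin φ := by fun_prop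
  have := ((((hasDerivAt_sin (ψ + a)).comp_add_const ψ a).neg.mul
    ((Pr_der c1 ψ (2 * a)).sub (Pr_der0 c1 ψ))).add
    (((hasDerivAt_cos (ψ + a)).comp_add_const ψ a).mul ((Pr_der c2 ψ (2 * a)).sub (Pr_der0 c2 ψ))))
  refine HasDerivAt.congr_deriv this ?_
  obtain ⟨t1, t2, t3, t4⟩ := trig ψ a
  simp only [GG, int_cos hc, Pi.neg_apply, Pi.sub_apply]
  rw [t1, t2, t3, t4]
  linear_combination ((σ (ψ + 2 * a) + σ ψ) * sin a) * sin_sq_add_cos_sq (ψ + a)

lemma KK_der (hc : Continuous σ) (a ψ : ℝ) : HasDerivAt (KK σ a) (HH σ a ψ) ψ := by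
  have c1 : Continuous fun φ => σ φ * cos φ := by fun_prop
  have c2 : Continuous fun φ => σ φ * sin φ := by fun_prop
  have := (((((hasDerivAt_cos (ψ + a)).comp_add_const ψ a).mul
    ((Pr_der c1 ψ (2 * a)).sub (Pr_der0 c1 ψ))).add
    (((hasDerivAt_sin (ψ + a)).comp_add_const ψ a).mul
      ((Pr_der c2 ψ (2 * a)).sub (Pr_der0 c2 ψ)))).sub
    (((Pr_der hc ψ (2 * a)).sub (Pr_der0 hc ψ)).const_mul (cos a)))
  refine HasDerivAt.congr_deriv this ?_
  obtain ⟨t1, t2, t3, t4⟩ := trig ψ a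
  simp only [HH, Pi.sub_apply]
  rw [t1, t2, t3, t4]
  linear_combination ((σ (ψ + 2 * a) - σ ψ) * cos a) * sin_sq_add_cos_sq (ψ + a)

lemma KK_bd (hc : Continuous σ) (hm : Monotone σ) {a : ℝ} (ha : 0 < a) (ha' : a ≤ 1) (ψ : ℝ) :
    (2 * sin a - 2 * a * cos a) * σ ψ ≤ KK σ a ψ ∧
      KK σ a ψ ≤ (2 * sin a - 2 * a * cos a) * σ (ψ + 2 * a) := by
  have hi : ∀ f : ℝ → ℝ, Continuous f → IntervalIntegrable f MeasureTheory.volume ψ (ψ + 2 * a) :=
    fun f hf => hf.intervalIntegrable _ _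
  have e1 : KK σ a ψ = ∫ φ in ψ..ψ + 2 * a, σ φ * (cos (φ - (ψ + a)) - cos a) := by
    rw [KK, ← int_cos hc, Pr_sub hc, ← integral_const_mul,
      ← integral_sub (hi _ (by fun_prop)) (hi _ (by fun_prop))]
    exact integral_congr fun φ _ => by ring
  have e2 : ∀ r, (2 * sin a - 2 * a * cos a) * r =
      ∫ φ in ψ..ψ + 2 * a, r * (cos (φ - (ψ + a)) - cos a) := fun r => by
    rw [integral_const_mul, integral_sub (hi _ (by fun_prop)) (hi _ (by fun_prop)), int_cos0]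
    simp; ring
  have e3 : ∀ φ ∈ Icc ψ (ψ + 2 * a), 0 ≤ cos (φ - (ψ + a)) - cos a := fun φ hφ => by
    rw [← cos_abs (φ - (ψ + a)), sub_nonneg]
    exact cos_le_cos_of_nonneg_of_le_pi (abs_nonneg _) (by linarith [pi_gt_three])
      (abs_le.2 ⟨by linarith [hφ.1], by linarith [hφ.2]⟩)
  rw [e1, e2, e2]
  constructor <;> refine integral_mono_on (by linarith) (hi _ (by fun_prop)) (hi _ (by fun_prop))
    fun φ hφ => mul_le_mul_of_nonneg_right (hm ?_) (e3 φ hφ)
  exacts [hφ.1, hφ.2]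

lemma mass_ge {a : ℝ} (ha : 0 < a) (ha' : a ≤ 1) : a ^ 3 / 3 ≤ 2 * sin a - 2 * a * cos a := by
  have h1 := (abs_le.1 (sin_bound (x := a) (by rwa [abs_of_pos ha]))).1
  have h2 := (abs_le.1 (cos_bound (x := a) (by rwa [abs_of_pos ha]))).2
  rw [abs_of_pos ha] at h1 h2
  have h3 : a ^ 4 ≤ a ^ 3 := pow_le_pow_of_le_one ha.le ha' (by norm_num)
  have h4 : a ^ 5 ≤ a ^ 3 := pow_le_pow_of_le_one ha.le ha' (by norm_num)
  nlinarith only [ha, h1, h2, h4]

lemma second (hc : Continuous σ) (hm : Monotone σ) {a δ : ℝ} (ha : 0 < a) (hδ : 0 ≤ δ)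
    (hG : ∀ ψ, GG σ ψ a ≤ 4 * δ * (σ (ψ + 4 * a) - σ ψ)) {A B h : ℝ} (hAB : A ≤ B) (hh : 0 ≤ h) :
    KK σ a (B + h) - KK σ a (A + h) - h * (16 * a * δ * (σ (B + h + 4 * a) - σ A)) ≤
      KK σ a B - KK σ a A := by
  have d1 : ∀ ψ, HasDerivAt (fun ψ => HH σ a ψ - 4 * δ * (Pr σ (ψ + 4 * a) - Pr σ ψ))
      (GG σ ψ a - 4 * δ * (σ (ψ + 4 * a) - σ ψ)) ψ := fun ψ =>
    (HH_der hc a ψ).sub (((Pr_der hc ψ _).sub (Pr_der0 hc ψ)).const_mul _)
  have a1 := antitone_of_hasDerivAt_nonpos d1 fun ψ => sub_nonpos.2 (hG ψ)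
  have b1 : ∀ x, 4 * a * σ x ≤ Pr σ (x + 4 * a) - Pr σ x ∧
      Pr σ (x + 4 * a) - Pr σ x ≤ 4 * a * σ (x + 4 * a) := fun x => by
    rw [Pr_sub hc]
    have k1 := integral_mono_on (μ := MeasureTheory.volume) (f := fun _ => σ x) (g := σ)
      (show x ≤ x + 4 * a by linarith) (by simp) (hc.intervalIntegrable _ _) fun φ hφ => hm hφ.1
    have k2 := integral_mono_on (μ := MeasureTheory.volume) (g := fun _ => σ (x + 4 * a)) (f := σ)
      (show x ≤ x + 4 * a by linarith) (hc.intervalIntegrable _ _) (by simp) fun φ hφ => hm hφ.2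
    simp only [intervalIntegral.integral_const, smul_eq_mul, add_sub_cancel_left] at k1 k2
    exact ⟨k1, k2⟩
  set E := 16 * a * δ * (σ (B + h + 4 * a) - σ A) with hE
  have d2 : ∀ t, HasDerivAt (fun t => KK σ a (B + t) - KK σ a (A + t) - t * E)
      (HH σ a (B + t) - HH σ a (A + t) - 1 * E) t := fun t =>
    (((KK_der hc a _).comp_const_add B t).sub ((KK_der hc a _).comp_const_add A t)).sub
      ((hasDerivAt_id t).mul_const E)
  have a2 := antitoneOn_of_deriv_nonpos (convex_Icc 0 h)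
    (fun t _ => (d2 t).continuousAt.continuousWithinAt)
    (fun t _ => (d2 t).differentiableAt.differentiableWithinAt) (fun t ht => by
      rw [interior_Icc] at ht
      rw [(d2 t).deriv]
      have k1 := a1 (show A + t ≤ B + t by linarith)
      have k2 := (b1 (B + t)).2
      have k3 := (b1 (A + t)).1
      have k4 := hm (show B + t + 4 * a ≤ B + h + 4 * a by linarith [ht.2])
      have k5 := hm (show A ≤ A + t by linarith only [ht.1])
      have k6 : Pr σ (B + t + 4 * a) - Pr σ (B + t) - (Pr σ (A + t + 4 * a) - Pr σ (A + t)) ≤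
          4 * a * (σ (B + h + 4 * a) - σ A) := by nlinarith only [ha, k2, k3, k4, k5]
      simp only at k1
      nlinarith only [hδ, k1, k6])
  simpa only [tsub_le_iff_right, ge_iff_le, add_zero, zero_mul, sub_zero] using a2 ⟨le_rfl, hh⟩ ⟨hh, le_rfl⟩ hh

theorem affine (hc : Continuous σ) (hm : Monotone σ) {T L : ℝ} (hT : 0 < T)
    (hp : ∀ x, σ (x + T) = σ x + L)
    (h : ∀ ε > 0, ∃ a, 0 < a ∧ a < ε ∧ ∀ ψ, ∃ α, a ≤ α ∧ α ≤ a + ε * a ^ 2 ∧ GG σ ψ α = 0) :
    ∃ R, ∀ x, σ x = σ 0 + R * x := by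
  have key : ∀ A B t, A ≤ B → 0 ≤ t → σ (B + t) - σ B ≤ σ (A + t) - σ A := by
    intro A B t hAB ht
    set W := σ (B + t + 2) - σ A with hW
    have hW0 : 0 ≤ W := sub_nonneg.2 (hm (by linarith))
    have hu : Continuous fun ε => σ (B + t) - σ (A + t + 2 * ε) - σ (B + 2 * ε) + σ A -
        48 * ε * t * W := by fun_prop
    have h0 := le_of_tendsto (b := 0) ((hu.tendsto 0).mono_left (nhdsWithin_le_nhds (s := Ioi 0))) ?_
    · simp only [mul_zero, add_zero, zero_mul, sub_zero] at h0; linarith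
    filter_upwards [Ioo_mem_nhdsGT (show (0 : ℝ) < 1 / 2 by norm_num)] with ε hε
    obtain ⟨a, ha, haε, hψ⟩ := h ε hε.1
    have ha1 : a ≤ 1 := by linarith [hε.2]
    have hδ : 0 ≤ ε * a ^ 2 := mul_nonneg hε.1.le (sq_nonneg a)
    have k1 := second hc hm ha hδ (fun ψ => by
      obtain ⟨α, h1, h2, h3⟩ := hψ ψ
      exact GG_le hc hm ha h1 h2 (by nlinarith only [hε.2, ha, ha1]) (by linarith [hε.2]) h3)
      hAB ht
    have m0 := mass_ge ha ha1
    set m := 2 * sin a - 2 * a * cos a with hm'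
    have a3 := pow_pos ha 3
    have k2 := (KK_bd hc hm ha ha1 (B + t)).1
    have k3 := (KK_bd hc hm ha ha1 (A + t)).2
    have k4 := (KK_bd hc hm ha ha1 B).2
    have k5 := (KK_bd hc hm ha ha1 A).1
    have k6 := hm (show A + t + 2 * a ≤ A + t + 2 * ε by linarith only [haε])
    have k7 := hm (show B + 2 * a ≤ B + 2 * ε by linarith only [haε])
    have k8 := hm (show B + t + 4 * a ≤ B + t + 2 by linarith only [hε.2, haε])
    have k9 : t * (16 * a * (ε * a ^ 2) * (σ (B + t + 4 * a) - σ A)) ≤ m * (48 * ε * t * W) := by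
      have p1 : 0 ≤ 48 * ε * t := by have := hε.1; positivity
      calc _ = 48 * ε * t * (a ^ 3 / 3 * (σ (B + t + 4 * a) - σ A)) := by ring
        _ ≤ 48 * ε * t * (m * W) := mul_le_mul_of_nonneg_left
            (mul_le_mul m0 (by linarith only [k8]) (sub_nonneg.2 (hm (by linarith only [hAB, ht, ha]))) (by linarith only [m0, a3])) p1
        _ = _ := by ring
    have mpos : 0 < m := by linarith only [m0, a3]
    refine le_of_mul_le_mul_left ?_ mpos
    nlinarith only [k1, m0, a3, k2, k3, k4, k5, k6, k7, k9]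
  have inc : ∀ t, 0 ≤ t → ∀ x y, σ (x + t) - σ x ≤ σ (y + t) - σ y := by
    intro t ht x y
    have hper : Periodic (fun x => σ (x + t) - σ x) T := fun x => by
      simp only [add_right_comm x T, hp]; ring
    obtain ⟨n, hn⟩ := exists_nat_ge ((y - x) / T)
    rw [div_le_iff₀ hT] at hn
    have : σ (x + n * T + t) - σ (x + n * T) = σ (x + t) - σ x := hper.nat_mul n x
    rw [← this]
    exact key _ _ _ (by linarith) ht
  let f : ℝ →+ ℝ := AddMonoidHom.mk' (fun x => σ x - σ 0) fun x y => by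
    rcases le_total 0 y with hy | hy
    · have k1 := inc y hy x 0
      have k2 := inc y hy 0 x
      simp only [zero_add] at k1 k2; linarith
    · have k1 := inc (-y) (by linarith) (x + y) y
      have k2 := inc (-y) (by linarith) y (x + y)
      simp only [add_neg_cancel_right, add_neg_cancel] at k1 k2; linarith
  refine ⟨σ 1 - σ 0, fun x => ?_⟩
  have := map_real_smul f (hc.sub continuous_const) x 1
  simp only [f, AddMonoidHom.mk'_apply, smul_eq_mul, mul_one] at this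
  linarith

end Pool.Agent.MP_61130f_an

end

-- part MP_61130f_an.Rig
section

/-! Closed geodesics through every boundary point force the curve to be a circle. -/

namespace Pool.Agent.MP_61130f_an

open Set Filter Topology Function Complex ComplexConjugate
open scoped Real

/-- the angle with cotangent `-y` -/
noncomputable def ang (y : ℝ) : ℝ := π / 2 + Real.arctan y

lemma ang_mem (y : ℝ) : ang y ∈ Ioo 0 π :=
  ⟨by unfold ang; linarith [Real.neg_pi_div_two_lt_arctan y],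
    by unfold ang; linarith only [Real.arctan_lt_pi_div_two y]⟩

lemma sin_ang (y : ℝ) : 0 < Real.sin (ang y) :=
  Real.sin_pos_of_pos_of_lt_pi (ang_mem y).1 (ang_mem y).2

lemma cos_ang (y : ℝ) : Real.cos (ang y) = -y * Real.sin (ang y) := by
  have h := Real.tan_arctan y
  rw [Real.tan_eq_sin_div_cos, div_eq_iff (Real.cos_arctan_pos y).ne'] at h
  rw [ang, add_comm, Real.cos_add_pi_div_two, Real.sin_add_pi_div_two, h]; ring

lemma ang_mono : StrictMono ang := fun _ _ h => by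
  unfold ang; linarith [Real.arctan_strictMono h]

lemma polar {z : ℂ} (hz : 0 < z.im) :
    ∃ l : ℝ, 0 < l ∧ z = l * exp (ang (-z.re / z.im) * I) := by
  have hy : z.re = -(-z.re / z.im) * z.im := by field_simp
  generalize -z.re / z.im = y at hy
  have hs := sin_ang y
  refine ⟨z.im / Real.sin (ang y), div_pos hz hs, Complex.ext ?_ ?_⟩
  · rw [re_ofReal_mul, exp_ofReal_mul_I_re, cos_ang, hy]; field_simp
  · rw [im_ofReal_mul, exp_ofReal_mul_I_im]; field_simp

lemma arg_eq {x y : ℝ} (hx : x ∈ Ioo 0 (2 * π)) (hy : y ∈ Ioo 0 (2 * π))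
    (h : exp (x * I) = exp (y * I)) : x = y := by
  obtain ⟨n, hn⟩ := exp_eq_exp_iff_exists_int.1 h
  have h1 : x = y + n * (2 * π) := by simpa using congrArg im hn
  have hp := Real.two_pi_pos
  have h2 : (n : ℝ) < 1 := by nlinarith only [hx.2, hy.1, h1, hp]
  have h3 : (-1 : ℝ) < n := by nlinarith only [hx.1, hy.2, h1, hp]
  have h4 : n = 0 := by
    have : n < 1 := by exact_mod_cast h2
    have : -1 < n := by exact_mod_cast h3
    omega
  simpa [h4] using h1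

namespace Ov

variable {γ τ : ℝ → ℂ} {L : ℝ}

lemma theta (h : Ov γ τ L) : ∃ θ : ℝ → ℝ, Continuous θ ∧ (∀ s, τ s = exp (θ s * I)) ∧
    (∀ s u, u ∈ Ioo s (s + L) → θ u - θ s ∈ Ioo 0 (2 * π)) ∧ ∀ s, θ (s + L) = θ s + 2 * π := by
  obtain ⟨ω, hω, hω'⟩ := Lib.PlaneTop.hasLogOn_of_convex (F := τ) convex_univ h.cont.continuousOn
    fun x _ h0 => by simpa [h0] using h.unit x
  have hθ : Continuous fun s => (ω s).im := continuous_im.comp (continuousOn_univ.1 hω)
  have he : ∀ s, τ s = exp ((ω s).im * I) := fun s => by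
    have h1 := h.unit s
    rw [← hω' s trivial, norm_exp, Real.exp_eq_one_iff] at h1
    rw [← hω' s trivial]; congr 1; exact Complex.ext (by simp [h1]) (by simp)
  generalize (fun s => (ω s).im) = θ, hθθ : (fun s => (ω s).im) = θ at hθ
  have he : ∀ s, τ s = exp (θ s * I) := fun s => by rw [← hθθ]; exact he s
  have hL := h.pos
  have hne : ∀ s u, u ∈ Ioo s (s + L) → ∀ n : ℤ, θ u ≠ θ s + n * (2 * π) := by
    intro s u hu n hn
    have e : τ u = τ s := by
      rw [he, he, hn]; push_cast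
      rw [add_mul, exp_add, mul_assoc (n : ℂ), exp_int_mul_two_pi_mul_I, mul_one]
    have h1 := h.im_pos hu
    have h2 := h.im_pos' hu
    rw [e] at h2
    simp only [qq, mul_im, conj_re, conj_im] at h1 h2
    linarith only [h1, h2]
  have hpos : ∀ s u, u ∈ Ioo s (s + L) → θ s < θ u := by
    intro s u hu
    by_contra hcon
    have hall : ∀ v ∈ Ioo s (s + L), θ v < θ s := fun v hv => by
      by_contra hv'
      obtain ⟨w, hw, hw'⟩ := isPreconnected_Ioo.intermediate_value hu hv hθ.continuousOn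
        ⟨not_lt.1 hcon, not_lt.1 hv'⟩
      exact hne s w hw 0 (by simpa using hw')
    obtain ⟨η, hη, hη'⟩ := Metric.continuous_iff.1 hθ s π Real.pi_pos
    have hd : ∀ u, HasDerivAt (fun u => (qq γ τ s u).im) (Real.sin (θ u - θ s)) u := fun u => by
      have hq : HasDerivAt (qq γ τ s) (τ u * conj (τ s)) u := ((h.der u).sub_const _).mul_const _
      refine HasDerivAt.congr_deriv (imCLM.hasFDerivAt.comp_hasDerivAt u hq) ?_
      rw [he, he]
      simp only [imCLM_apply, mul_im, conj_re, conj_im, exp_ofReal_mul_I_re, exp_ofReal_mul_I_im,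
        Real.sin_sub]
      ring
    have hm : 0 < min η L := lt_min hη hL
    have ha := strictAntiOn_of_deriv_neg (convex_Icc s (s + min η L))
      (fun u _ => (hd u).continuousAt.continuousWithinAt) (fun v hv => by
        rw [interior_Icc] at hv
        rw [(hd v).deriv]
        have k1 := hall v ⟨hv.1, by linarith [hv.2, min_le_right η L]⟩
        have k2 := hη' v (by
          rw [Real.dist_eq, abs_lt]; constructor <;> linarith [hv.1, hv.2, min_le_left η L])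
        rw [Real.dist_eq, abs_lt] at k2
        exact Real.sin_neg_of_neg_of_neg_pi_lt (by linarith) k2.1)
    have k := ha (a := s) (b := s + min η L / 2) ⟨le_rfl, by linarith⟩ ⟨by linarith, by linarith⟩
      (by linarith)
    have k' := h.im_pos (s := s) (u := s + min η L / 2)
      ⟨by linarith, by linarith [min_le_right η L]⟩
    simp only [qq, sub_self, zero_mul, zero_im] at k k'
    linarith only [k', k]
  have hlt : ∀ s u, u ∈ Ioo s (s + L) → θ u - θ s < 2 * π := by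
    intro s u hu
    by_contra hcon
    obtain ⟨w, hw, hw'⟩ := intermediate_value_Icc hu.1.le hθ.continuousOn
      (show θ s + 2 * π ∈ Icc (θ s) (θ u) from ⟨by linarith [Real.pi_pos], by linarith⟩)
    refine hne s w ⟨hw.1.lt_of_ne ?_, hw.2.trans_lt hu.2⟩ 1 (by simpa using hw')
    rintro rfl
    linarith [Real.pi_pos]
  refine ⟨θ, hθ, he, fun s u hu => ⟨sub_pos.2 (hpos s u hu), hlt s u hu⟩, fun s => ?_⟩
  obtain ⟨n, hn⟩ := exp_eq_exp_iff_exists_int.1
    (show exp (θ (s + L) * I) = exp (θ s * I) by rw [← he, ← he, h.pert])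
  have h1 : θ (s + L) = θ s + n * (2 * π) := by simpa using congrArg im hn
  have m1 : s + L / 2 ∈ Ioo s (s + L) := ⟨by linarith only [hL], by linarith⟩
  have m2 : s + L ∈ Ioo (s + L / 2) (s + L / 2 + L) := ⟨by linarith, by linarith⟩
  have hp := Real.two_pi_pos
  have h2 : (n : ℝ) < 2 := by nlinarith only [hlt _ _ m1, hlt _ _ m2, h1, hp]
  have h3 : (0 : ℝ) < n := by nlinarith only [hpos _ _ m1, hpos _ _ m2, h1, hp]
  have h4 : n = 1 := by
    have : n < 2 := by exact_mod_cast h2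
    have : 0 < n := by exact_mod_cast h3
    omega
  simpa [h4] using h1

lemma sigma (h : Ov γ τ L) {θ : ℝ → ℝ} (hθ : Continuous θ)
    (h1 : ∀ s u, u ∈ Ioo s (s + L) → θ u - θ s ∈ Ioo 0 (2 * π))
    (h2 : ∀ s, θ (s + L) = θ s + 2 * π) : StrictMono θ ∧ Surjective θ := by
  have hL := h.pos
  have hp : Periodic (fun s => θ s - s * (2 * π / L)) L := fun s => by
    simp only [h2]; field_simp; ring
  have hn : ∀ s (n : ℤ), θ (s + n * L) = θ s + n * (2 * π) := fun s n => by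
    have : θ (s + n * L) - (s + n * L) * (2 * π / L) = θ s - s * (2 * π / L) := hp.int_mul n s
    have e : (s + n * L) * (2 * π / L) = s * (2 * π / L) + n * (2 * π) := by field_simp
    linarith
  have hm : StrictMono θ := by
    intro s u hsu
    have k1 := toIocMod_mem_Ioc hL s u
    have k2 := toIocMod_add_toIocDiv_zsmul hL s u
    rw [zsmul_eq_mul] at k2
    have k3 : θ s < θ (toIocMod hL s u) := by
      rcases k1.2.eq_or_lt with e | e
      · rw [e, h2]; linarith [Real.pi_pos]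
      · exact sub_pos.1 (h1 _ _ ⟨k1.1, e⟩).1
    have k4 : (-1 : ℝ) < toIocDiv hL s u := by nlinarith only [k1.2, hL, hsu, k2]
    have k5 : (0 : ℝ) ≤ toIocDiv hL s u := by
      have : -1 < toIocDiv hL s u := by exact_mod_cast k4
      exact_mod_cast (by omega : 0 ≤ toIocDiv hL s u)
    rw [← k2, hn]
    nlinarith only [Real.two_pi_pos, k3, k5]
  refine ⟨hm, hθ.surjective ?_ ?_⟩
  · refine tendsto_atTop_atTop_of_monotone hm.monotone fun b =>
      ⟨0 + (⌈(b - θ 0) / (2 * π)⌉ : ℤ) * L, ?_⟩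
    have := Int.le_ceil ((b - θ 0) / (2 * π))
    rw [div_le_iff₀ Real.two_pi_pos] at this
    rw [hn]; linarith
  · refine tendsto_atBot_atBot_of_monotone hm.monotone fun b =>
      ⟨0 + (⌊(b - θ 0) / (2 * π)⌋ : ℤ) * L, ?_⟩
    have := Int.floor_le ((b - θ 0) / (2 * π))
    rw [le_div_iff₀ Real.two_pi_pos] at this
    rw [hn]; linarith

lemma der_exp (φ : ℝ) : HasDerivAt (fun x : ℝ => exp (x * I)) (exp (φ * I) * I) φ := by
  simpa using ((hasDerivAt_id φ).ofReal_comp.mul_const I).cexp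

lemma derR (h : Ov γ τ L) {θ σ : ℝ → ℝ} (he : ∀ s, τ s = exp (θ s * I)) (hm : Monotone θ)
    (hσ : Continuous σ) (hi : ∀ x, θ (σ x) = x) (φ : ℝ) :
    HasDerivAt (fun x : ℝ => γ (σ x) - σ x * exp (x * I)) (-(σ φ * (exp (φ * I) * I))) φ := by
  have hb : ∀ x, ‖γ (σ x) - γ (σ φ) - (σ x - σ φ) * exp (x * I)‖ ≤ |σ x - σ φ| * ‖x - φ‖ := by
    intro x
    have := Convex.norm_image_sub_le_of_norm_hasDerivWithin_le (s := uIcc (σ φ) (σ x))
      (f := fun r : ℝ => γ r - r * exp (x * I)) (f' := fun r => τ r - exp (x * I)) (C := ‖x - φ‖)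
      (fun r _ => (((h.der r).sub ((hasDerivAt_id r).ofReal_comp.mul_const
        (exp (x * I)))).congr_deriv (by simp)).hasDerivWithinAt)
      (fun r hr => by
        have k1 : θ r ∈ uIcc φ x := by
          have := hm.image_uIcc_subset (mem_image_of_mem θ hr)
          rwa [hi, hi] at this
        have k2 : τ r - exp (x * I) = exp (x * I) * (exp (I * (θ r - x : ℝ)) - 1) := by
          rw [he, mul_sub, ← exp_add]; push_cast; ring_nf
        rw [k2, norm_mul, norm_exp_ofReal_mul_I, one_mul]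
        refine Real.norm_exp_I_mul_ofReal_sub_one_le.trans ?_
        rw [Real.norm_eq_abs, Real.norm_eq_abs, abs_sub_comm]
        exact abs_sub_right_of_mem_uIcc k1)
      (convex_uIcc _ _) left_mem_uIcc right_mem_uIcc
    rw [mul_comm |_|, show γ (σ x) - γ (σ φ) - (σ x - σ φ) * exp (x * I) =
      γ (σ x) - σ x * exp (x * I) - (γ (σ φ) - σ φ * exp (x * I)) by ring]
    exact this
  have h0 : HasDerivAt (fun x : ℝ => γ (σ x) - γ (σ φ) - (σ x - σ φ) * exp (x * I)) 0 φ := by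
    rw [hasDerivAt_iff_isLittleO, Asymptotics.isLittleO_iff]
    intro c hc
    have : ∀ᶠ x in 𝓝 φ, |σ x - σ φ| < c :=
      (show Continuous fun x => |σ x - σ φ| by fun_prop).continuousAt.eventually_lt
        continuousAt_const (by simpa using hc)
    filter_upwards [this] with x hx
    simp only [sub_self, zero_mul, sub_zero, smul_zero]
    exact (hb x).trans (mul_le_mul_of_nonneg_right hx.le (norm_nonneg _))
  have h1 := (h0.add_const (γ (σ φ))).sub ((der_exp φ).const_mul (σ φ : ℂ))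
  rw [zero_sub] at h1
  exact h1.congr_of_eventuallyEq (.of_forall fun x => by simp only [Pi.sub_apply]; ring)

lemma GG_im (h : Ov γ τ L) {θ σ : ℝ → ℝ} (he : ∀ s, τ s = exp (θ s * I)) (hm : Monotone θ)
    (hσ : Continuous σ) (hi : ∀ x, θ (σ x) = x) (ψ a : ℝ) :
    GG σ ψ a = ((γ (σ (ψ + 2 * a)) - γ (σ ψ)) * exp (-(ψ + a : ℝ) * I)).im := by
  have e : ∀ x : ℝ, exp (x * I) * exp (-(ψ + a : ℝ) * I) = exp ((x - (ψ + a) : ℝ) * I) :=
    fun x => by rw [← exp_add]; push_cast; ring_nf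
  have hd : ∀ φ : ℝ, HasDerivAt
      (fun x : ℝ => ((γ (σ x) - σ x * exp (x * I)) * exp (-(ψ + a : ℝ) * I)).im)
      (-(σ φ * Real.cos (φ - (ψ + a)))) φ := fun φ => by
    refine HasDerivAt.congr_deriv (imCLM.hasFDerivAt.comp_hasDerivAt φ
      ((h.derR he hm hσ hi φ).mul_const (exp (-(ψ + a : ℝ) * I)))) ?_
    rw [imCLM_apply, neg_mul, neg_im, mul_assoc, mul_right_comm, e, im_ofReal_mul, mul_I_im,
      exp_ofReal_mul_I_re]
  have h1 := intervalIntegral.integral_eq_sub_of_hasDerivAt (a := ψ) (b := ψ + 2 * a)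
    (fun x _ => hd x) (Continuous.intervalIntegrable (by fun_prop) _ _)
  rw [intervalIntegral.integral_neg] at h1
  simp only [sub_mul, mul_assoc, e, sub_im, im_ofReal_mul, exp_ofReal_mul_I_im] at h1 ⊢
  rw [show ψ + 2 * a - (ψ + a) = a by ring, show ψ - (ψ + a) = -a by ring, Real.sin_neg] at h1
  rw [GG]; linarith

/-- an equal-angle chord -/
lemma chord (h : Ov γ τ L) {θ : ℝ → ℝ} (he : ∀ s, τ s = exp (θ s * I))
    (h1 : ∀ s u, u ∈ Ioo s (s + L) → θ u - θ s ∈ Ioo 0 (2 * π)) {s u y : ℝ}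
    (hu : u ∈ Ioo s (s + L)) (e1 : YY γ τ s u = y) (e2 : YY (rv γ) (rt τ) (-u) (-s) = y) :
    θ u = θ s + 2 * ang y ∧ ((γ u - γ s) * exp (-(θ s + ang y : ℝ) * I)).im = 0 := by
  obtain ⟨l, hl, hq⟩ := polar (h.im_pos hu)
  obtain ⟨l', hl', hq'⟩ := polar (h.rev.im_pos (neg_mem hu))
  rw [show -(qq γ τ s u).re / (qq γ τ s u).im = y from e1] at hq
  rw [show -(qq (rv γ) (rt τ) (-u) (-s)).re / _ = y from e2, qq_rv] at hq'
  have hc : conj (τ s) = exp (-θ s * I) := by rw [he, ← exp_conj]; simp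
  have n1 : l = ‖γ u - γ s‖ := by
    simpa [qq, h.unit, abs_of_pos hl] using (congrArg norm hq).symm
  have n2 : l' = ‖γ u - γ s‖ := by
    simpa [-map_sub, h.unit, abs_of_pos hl'] using (congrArg norm hq').symm
  constructor
  · rw [← sub_eq_iff_eq_add']
    refine arg_eq (h1 s u hu) ⟨by linarith [(ang_mem y).1], by linarith only [(ang_mem y).2]⟩ ?_
    have k1 : qq γ τ s u * (conj (γ u - γ s) * τ u) = (l : ℂ) ^ 2 * exp ((θ u - θ s : ℝ) * I) := by
      rw [qq, hc, he u, n1, ← Complex.mul_conj']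
      push_cast
      rw [sub_mul (θ u : ℂ), exp_sub, neg_mul, exp_neg]; field_simp
    rw [hq, hq', n2, ← n1] at k1
    refine mul_left_cancel₀ (pow_ne_zero 2 (ofReal_ne_zero.2 hl.ne')) (k1.symm.trans ?_)
    push_cast
    rw [two_mul, add_mul, exp_add]; ring
  · have k : (γ u - γ s) * exp (-(θ s + ang y : ℝ) * I) = l := by
      have : exp (-(θ s + ang y : ℝ) * I) = exp (-θ s * I) * exp (-(ang y * I)) := by
        rw [← exp_add]; push_cast; ring_nf
      rw [this, ← mul_assoc, ← hc, show (γ u - γ s) * conj (τ s) = _ from hq, mul_assoc, ← exp_add]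
      simp
    rw [k, ofReal_im]

theorem rigid (h : Ov γ τ L) {d : ℝ} (hd : 0 < d)
    (hf : ∃ᶠ k : ℕ in atTop, ∀ s, ∃ y, h.TT d (s, y) = (s + k * L, y)) :
    ∃ z r, ∀ s, ‖γ s - z‖ = r := by
  have hL := h.pos
  obtain ⟨θ, hθ, he, h1, h2⟩ := h.theta
  obtain ⟨hm, hs⟩ := h.sigma hθ h1 h2
  let e := hm.orderIsoOfSurjective θ hs
  have hi : ∀ x, θ (e.symm x) = x := e.apply_symm_apply
  have hi' : ∀ x, e.symm (θ x) = x := e.symm_apply_apply
  have hc : Continuous e.symm := e.symm.continuous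
  suffices key : ∀ ε > 0, ∃ a, 0 < a ∧ a < ε ∧
      ∀ ψ, ∃ α, a ≤ α ∧ α ≤ a + ε * a ^ 2 ∧ GG e.symm ψ α = 0 by
    obtain ⟨R, hR⟩ := affine hc e.symm.monotone Real.two_pi_pos (L := L)
      (fun x => hm.injective (by rw [h2, hi, hi])) key
    have hd : ∀ φ : ℝ, HasDerivAt (fun x : ℝ => γ (e.symm x) + R * I * exp (x * I)) 0 φ := by
      intro φ
      have k := ((h.derR he hm.monotone hc hi φ).add
        ((((hasDerivAt_id φ).ofReal_comp.const_mul (R : ℂ)).const_add (e.symm 0 : ℂ)).mul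
          (der_exp φ))).add ((der_exp φ).const_mul (R * I))
      refine (k.congr_deriv ?_).congr_of_eventuallyEq (.of_forall fun x => ?_)
      · rw [hR φ]; simp only [id]; push_cast; linear_combination (R * exp (φ * I)) * I_mul_I
      · simp only [Pi.add_apply, Pi.mul_apply, id]
        rw [show ((e.symm x : ℝ) : ℂ) = e.symm 0 + R * x by rw [hR x]; push_cast; ring]; ring
    refine ⟨γ (e.symm 0) + R * I * exp ((0 : ℝ) * I), |R|, fun s => ?_⟩
    rw [← is_const_of_deriv_eq_zero (fun x => (hd x).differentiableAt) (fun x => (hd x).deriv)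
      (θ s) 0, hi']
    simp
  intro ε hε
  set t := min (L / 2) (d / 4 * min 1 ε) with ht
  have ht0 : 0 < t := lt_min (by linarith only [hL]) (mul_pos (by linarith only [hd]) (lt_min one_pos hε))
  have hp : Periodic (fun s => θ (s + t) - θ s) L := fun s => by
    simp only [add_right_comm s L, h2]; ring
  obtain ⟨_, ⟨b, rfl⟩, hb⟩ := (hp.compact_of_continuous hL.ne' (by fun_prop)).exists_isLeast
    (range_nonempty _)
  set η := min (θ (b + t) - θ b) (min 1 ε) with hη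
  have hη0 : 0 < η := lt_min (sub_pos.2 (hm (by linarith))) (lt_min one_pos hε)
  obtain ⟨k, hk, hk'⟩ := (hf.and_eventually
    (tendsto_natCast_atTop_atTop.eventually_gt_atTop (1 + 4 * d / η / L))).exists
  have hk2 : 4 * d / η < k * L - L := by
    have := (div_lt_iff₀ hL).1 (lt_sub_iff_add_lt'.2 hk'); linarith only [this]
  have small : ∀ y, d * y ≤ L - k * L → 2 * ang y < η := fun y hy => by
    have k0 : 4 * d < (k * L - L) * η := (div_lt_iff₀ hη0).1 hk2
    have k1 : 4 < -y * η := by nlinarith only [hd, hη0, hy, k0]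
    have k2 : y < 0 := by nlinarith only [hη0, k1]
    have k3 : ang y ≤ π / 2 := by simpa only [ang, add_le_iff_nonpos_right, Real.arctan_le_zero] using k2.le
    have k4 := Real.mul_le_sin (ang_mem y).1.le k3
    have k5 := Real.cos_le_one (ang y)
    rw [cos_ang] at k5
    rw [div_mul_eq_mul_div, div_le_iff₀ Real.pi_pos] at k4
    have k6 : Real.sin (ang y) * 4 < η := by nlinarith only [hη0, k1, k5]
    nlinarith only [Real.pi_le_four, k1, k2, k3, k4, k5, k6]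
  have hη1 : η ≤ 1 := (min_le_right _ _).trans (min_le_left _ _)
  have hηε : η ≤ ε := (min_le_right _ _).trans (min_le_right _ _)
  have ha := small (-(k * L) / d) (by rw [mul_div_cancel₀ _ hd.ne']; linarith only [hL])
  have ha0 := (ang_mem (-(k * L) / d)).1
  refine ⟨ang (-(k * L) / d), ha0, by linarith only [hηε, ha, ha0], fun ψ => ?_⟩
  obtain ⟨y, hy⟩ := hk (e.symm ψ)
  have hu := h.U_mem (e.symm ψ) y
  have y2 : YY (rv γ) (rt τ) (-UU γ τ L (e.symm ψ) y) (-e.symm ψ) = y := congrArg Prod.snd hy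
  have y1 : UU γ τ L (e.symm ψ) y - d * _ = e.symm ψ + k * L := congrArg Prod.fst hy
  rw [show (BB γ τ L (e.symm ψ, y)).2 = y from y2] at y1
  obtain ⟨c1, c2⟩ := h.chord he h1 hu (h.YU _ _) y2
  generalize UU γ τ L (e.symm ψ) y = u at *
  rw [hi] at c1 c2
  have hα := small y (by linarith only [hu.2, y1])
  have hα0 := (ang_mem y).1
  have hut : u < e.symm ψ + t := hm.lt_iff_lt.1 (by
    have : θ (b + t) - θ b ≤ θ (e.symm ψ + t) - θ (e.symm ψ) := hb ⟨_, rfl⟩
    rw [hi] at this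
    linarith only [min_le_left (θ (b + t) - θ b) (min 1 ε), c1, hα, this])
  have hy0 : y - -(k * L) / d = (u - e.symm ψ) / d := by field_simp; linarith only [y1]
  have hw : 0 < (u - e.symm ψ) / d := div_pos (sub_pos.2 hu.1) hd
  have hw' : (u - e.symm ψ) / d ≤ min 1 ε / 4 := by
    rw [div_le_iff₀ hd]; linarith only [min_le_right (L / 2) (d / 4 * min 1 ε), hut]
  have hle := (ang_mono (sub_pos.1 (hy0 ▸ hw))).le
  refine ⟨ang y, hle, ?_, by rw [h.GG_im he hm.monotone hc hi, ← c1, hi', c2]⟩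
  have s1 : Real.sin (ang y - ang (-(k * L) / d)) =
      Real.sin (ang y) * Real.sin (ang (-(k * L) / d)) * ((u - e.symm ψ) / d) := by
    rw [Real.sin_sub, cos_ang, cos_ang, ← hy0]; ring
  have s2 := Real.mul_le_sin (sub_nonneg.2 hle) (by linarith only [Real.pi_gt_three, hη1, ha0, hα])
  have s3 := mul_le_mul (Real.sin_le hα0.le) (Real.sin_le ha0.le) (sin_ang _).le hα0.le
  rw [s1, div_mul_eq_mul_div, div_le_iff₀ Real.pi_pos] at s2
  generalize ang y = α at *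
  generalize ang (-(k * L) / d) = a at *
  generalize (u - e.symm ψ) / d = w at *
  have s4 : α - a ≤ 2 * (α * a * w) := by
    have p0 : 0 ≤ α * a * w := by positivity
    have p1 := mul_le_mul_of_nonneg_right s3 hw.le
    nlinarith only [Real.pi_le_four, Real.pi_pos, s2, p0, p1]
  have w1 : w ≤ 1 / 4 := by linarith only [min_le_left 1 ε, hw']
  have w2 : w ≤ ε / 4 := by linarith only [min_le_right 1 ε, hw']
  have s5 : a * w ≤ 1 / 4 := by nlinarith only [hη1, ha, hw, w1]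
  have s6 : α ≤ 2 * a := by nlinarith only [hα0, s4, s5]
  have s7 : α * a * w ≤ 2 * a * a * (ε / 4) :=
    mul_le_mul (mul_le_mul_of_nonneg_right s6 ha0.le) w2 hw.le (by positivity)
  linarith only [s4, s7]

end Ov

end Pool.Agent.MP_61130f_an

end

-- part MP_61130f_an.Main
section

/-! Assembly. -/

namespace Pool.Agent.MP_61130f_an

open Set Filter Topology Function Complex ComplexConjugate MeasureTheory
open scoped Real

noncomputable def kap (p : ℝ × ℝ) : ℝ × ℝ := (p.1, ang p.2)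

noncomputable def kin (p : ℝ × ℝ) : ℝ × ℝ := (p.1, -Real.cot p.2)

lemma cot_ang (y : ℝ) : Real.cot (ang y) = -y := by
  rw [Real.cot_eq_cos_div_sin, cos_ang, mul_div_assoc, div_self (sin_ang y).ne', mul_one]

lemma ang_cot {α : ℝ} (h0 : 0 < α) (h1 : α < π) : ang (-Real.cot α) = α := by
  rw [ang, Real.arctan_eq_of_tan_eq (x := α - π / 2) _ ⟨by linarith, by linarith only [h1]⟩]
  · ring
  · rw [Real.tan_eq_sin_div_cos, Real.sin_sub_pi_div_two, Real.cos_sub_pi_div_two,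
      Real.cot_eq_cos_div_sin, neg_div]

lemma kap_mem (p : ℝ × ℝ) : kap p ∈ Strip := ang_mem p.2

lemma kin_kap (p : ℝ × ℝ) : kin (kap p) = p := by simp [kin, kap, cot_ang]

lemma kap_kin {p : ℝ × ℝ} (hp : p ∈ Strip) : kap (kin p) = p :=
  Prod.ext rfl (ang_cot hp.1 hp.2)

lemma kap_inj : Injective kap := LeftInverse.injective kin_kap

lemma kap_add (p : ℝ × ℝ) (t : ℝ) : kap (p + (t, 0)) = kap p + (t, 0) := by simp [kap]

lemma kin_add (p : ℝ × ℝ) (t : ℝ) : kin (p + (t, 0)) = kin p + (t, 0) := by simp [kin]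

lemma kap_diff : Differentiable ℝ kap :=
  differentiable_fst.prodMk
    ((Real.differentiable_arctan.comp differentiable_snd).const_add (π / 2))

lemma kin_cont : ContinuousOn kin Strip := by
  refine continuousOn_fst.prodMk (ContinuousOn.neg ?_)
  simp only [Real.cot_eq_cos_div_sin]
  exact ContinuousOn.div (by fun_prop) (by fun_prop)
    fun p hp => (Real.sin_pos_of_pos_of_lt_pi hp.1 hp.2).ne'

lemma kap_open {O : Set (ℝ × ℝ)} (hO : IsOpen O) : IsOpen (kap '' O) := by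
  have : kap '' O = Strip ∩ kin ⁻¹' O := by
    ext p
    exact ⟨by rintro ⟨q, hq, rfl⟩; exact ⟨kap_mem q, by simpa [kin_kap] using hq⟩,
      fun hp => ⟨_, hp.2, kap_kin hp.1⟩⟩
  rw [this]
  exact kin_cont.isOpen_inter_preimage ((isOpen_lt continuous_const continuous_snd).inter
    (isOpen_lt continuous_snd continuous_const)) hO

lemma Y_of {z : ℂ} {l α : ℝ} (hl : 0 < l) (h : z = l * exp (α * I)) :
    -z.re / z.im = -Real.cot α := by
  rw [h, re_ofReal_mul, im_ofReal_mul, exp_ofReal_mul_I_re, exp_ofReal_mul_I_im,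
    Real.cot_eq_cos_div_sin, neg_div, mul_div_mul_left _ _ hl.ne']

variable {γ : ℝ → ℂ} {L d : ℝ}

lemma IsOval.ov (h : IsOval γ L) : Ov γ (deriv γ) L :=
  ⟨h.pos, fun s => (h.smooth.differentiable one_ne_zero s).hasDerivAt,
    h.smooth.continuous_deriv le_rfl, h.unit, h.per, h.convex⟩

lemma bil_iff (h : Ov γ (deriv γ) L) {p q : ℝ × ℝ} :
    Bil γ L p q ↔ ∃ p', p = kap p' ∧ q = kap (BB γ (deriv γ) L p') := by
  constructor
  · rintro ⟨hp, hq, h1, h2, l, hl, e1, e2⟩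
    have y1 : YY γ (deriv γ) p.1 q.1 = -Real.cot p.2 :=
      Y_of hl (by rw [qq, e1, mul_assoc, h.mul_conj, mul_one])
    have y2 : YY (rv γ) (rt (deriv γ)) (-q.1) (-p.1) = -Real.cot q.2 := Y_of hl (by
      rw [qq_rv, e2, map_mul, map_mul, ← exp_conj, mul_assoc, mul_comm (conj (deriv γ q.1)),
        h.mul_conj]
      simp only [conj_ofReal, neg_mul, map_neg, map_mul, conj_I, mul_neg, neg_neg, mul_one])
    refine ⟨kin p, (kap_kin hp).symm, ?_⟩
    simp only [BB, kin, ← y1, h.UY ⟨h1, h2⟩, y2]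
    exact (kap_kin hq).symm
  · rintro ⟨p', rfl, rfl⟩
    have hu := h.U_mem p'.1 p'.2
    obtain ⟨l, hl, hq⟩ := polar (h.im_pos hu)
    obtain ⟨l', hl', hq'⟩ := polar (h.rev.im_pos (Ov.neg_mem hu))
    rw [show -(qq γ (deriv γ) p'.1 _).re / _ = p'.2 from h.YU _ _] at hq
    rw [show -(qq (rv γ) (rt (deriv γ)) _ _).re / _ = (BB γ (deriv γ) L p').2 from rfl,
      qq_rv] at hq'
    have n1 := congrArg norm hq
    have n2 := congrArg norm hq'
    simp only [qq, norm_mul, norm_conj, h.unit, norm_exp_ofReal_mul_I, norm_real,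
      Real.norm_of_nonneg hl.le, Real.norm_of_nonneg hl'.le, mul_one] at n1 n2
    refine ⟨kap_mem _, kap_mem _, hu.1, hu.2, l, hl, ?_, ?_⟩
    · simp only [kap, BB]
      rw [← hq, qq, mul_assoc, mul_comm (conj _), h.mul_conj, mul_one]
    · have := congrArg conj hq'
      rw [map_mul, map_mul, ← exp_conj, conj_conj, conj_ofReal, ← n1.symm.trans n2] at this
      simp only [map_mul, conj_ofReal, conj_I, mul_neg] at this
      simp only [kap, neg_mul]
      rw [← this, mul_assoc, mul_comm (conj _)]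
      simp only [BB, h.mul_conj, mul_one]

lemma coin_iff (h : Ov γ (deriv γ) L) {p q : ℝ × ℝ} :
    Coin γ L d p q ↔ ∃ p', p = kap p' ∧ q = kap (h.TT d p') := by
  simp only [Coin, bil_iff h]
  constructor
  · rintro ⟨_, ⟨p', rfl, rfl⟩, rfl⟩
    exact ⟨p', rfl, by simp [kap, Ov.TT_apply, cot_ang, sub_eq_add_neg]⟩
  · rintro ⟨p', rfl, rfl⟩
    exact ⟨_, ⟨p', rfl, rfl⟩, by simp [kap, Ov.TT_apply, cot_ang, sub_eq_add_neg]⟩

lemma coin_kap (h : Ov γ (deriv γ) L) {p q : ℝ × ℝ} :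
    Coin γ L d (kap p) q ↔ q = kap (h.TT d p) := by
  rw [coin_iff h]
  exact ⟨by rintro ⟨p', h1, rfl⟩; rw [kap_inj h1], fun hq => ⟨p, rfl, hq⟩⟩

lemma fix_kap (h : Ov γ (deriv γ) L) {k : ℕ} {p : ℝ × ℝ} :
    Fix γ L d k (kap p) ↔ sh (h.TT d) (k * L) p = p := by
  rw [Fix, coin_kap h, ← kap_add, kap_inj.eq_iff, sh_apply, sub_eq_iff_eq_add, eq_comm]

lemma leaf_of_lf (h : Ov γ (deriv γ) L) {c : ℝ → ℝ × ℝ} (hc : Lf (h.TT d) L c) :
    IsLeaf γ L d (kap '' range c) := by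
  refine ⟨kap ∘ c, 1, kap_diff.continuous.comp hc.cont, fun x => kap_mem _, one_ne_zero,
    fun x => by simp [hc.ess, kap_add], fun x y m hm => ⟨m, hc.inj (kap_inj ?_)⟩, ?_, ?_⟩
  · rw [hc.toEss.int, kap_add]; exact hm
  · ext p
    constructor
    · rintro ⟨_, ⟨x, rfl⟩, rfl⟩; exact ⟨x, 0, by simp⟩
    · rintro ⟨x, m, rfl⟩; exact ⟨_, ⟨x + m, rfl⟩, by rw [hc.toEss.int, kap_add]; rfl⟩
  · rintro _ ⟨_, ⟨x, rfl⟩, rfl⟩ q hq
    obtain ⟨y, hy⟩ := hc.fwd x
    exact ⟨_, ⟨y, rfl⟩, by rw [(coin_kap h).1 hq, hy]⟩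

lemma lf_of_leaf (h : Ov γ (deriv γ) L) {C : Set (ℝ × ℝ)} (hC : IsLeaf γ L d C) :
    ∃ c, Lf (h.TT d) L c ∧ C = kap '' range c := by
  have hL := h.pos
  obtain ⟨c, n, hc, hs, hn, he, hi, rfl, hinv⟩ := hC
  wlog hpos : 0 < n generalizing c n
  · have e : {p | ∃ (x : ℝ) (m : ℤ), p = c x + (m * L, 0)} =
        {p | ∃ (x : ℝ) (m : ℤ), p = c (-x) + (m * L, 0)} := by
      ext p
      exact ⟨fun ⟨x, m, hx⟩ => ⟨-x, m, by simpa using hx⟩, fun ⟨x, m, hx⟩ => ⟨-x, m, hx⟩⟩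
    rw [e] at hinv ⊢
    refine this (fun x => c (-x)) (-n) (by fun_prop) (fun x => hs _) (neg_ne_zero.2 hn)
      (fun x => ?_) (fun x y m hm => ?_) hinv (by omega)
    · have := he (-(x + 1))
      rw [show -(x + 1) + 1 = -x by ring] at this
      rw [this]; ext <;> simp
    · obtain ⟨j, hj⟩ := hi _ _ m hm
      exact ⟨-j, by push_cast; linarith only [hj]⟩
  have hE : Ess (n * L) (kin ∘ c) :=
    ⟨kin_cont.comp_continuous hc hs, fun x => by simp [he, kin_add]⟩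
  have hE' : Ess (n * L) fun x => (kin ∘ c) x + (L, 0) :=
    ⟨hE.cont.add continuous_const, fun x => by rw [hE.ess]; abel⟩
  have hk : ∀ x, kap ((kin ∘ c) x) = c x := fun x => kap_kin (hs x)
  have hsim : ∀ (x y : ℝ) (m : ℤ), (kin ∘ c) x = (kin ∘ c) y + (m * L, 0) →
      ∃ j : ℤ, x = y + j ∧ j * n = m := fun x y m hm => by
    obtain ⟨j, rfl⟩ := hi x y m (by rw [← hk, hm, kap_add, hk])
    refine ⟨j, rfl, ?_⟩
    rw [hE.int, add_right_inj, Prod.mk.injEq, ← mul_assoc] at hm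
    exact_mod_cast mul_right_cancel₀ hL.ne' hm.1
  obtain ⟨a, ha⟩ := hE.low
  obtain ⟨b, hb⟩ := hE.high
  obtain ⟨x, y, hxy⟩ := hE.meet hE' (mul_pos (by exact_mod_cast hpos) hL) (a := a) (b := b)
    (fun x => by simpa using ha x) (fun x => by simpa using hb x)
  obtain ⟨j, -, hj⟩ := hsim x y 1 (by simpa using hxy)
  obtain rfl : n = 1 := Int.eq_one_of_mul_eq_one_left hpos.le hj
  have hE1 : Ess L (kin ∘ c) := by simpa using hE
  have e : {p | ∃ (x : ℝ) (m : ℤ), p = c x + (m * L, 0)} = kap '' range (kin ∘ c) := by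
    ext p
    constructor
    · rintro ⟨x, m, rfl⟩; exact ⟨_, ⟨x + m, rfl⟩, by rw [hE1.int, kap_add, hk]⟩
    · rintro ⟨_, ⟨x, rfl⟩, rfl⟩; exact ⟨x, 0, by rw [hk]; ext <;> simp⟩
  refine ⟨kin ∘ c, ⟨hE1, fun x y hxy => ?_, fun x => ?_⟩, e⟩
  · obtain ⟨j, rfl, hj⟩ := hsim x y 0 (by rw [hxy]; ext <;> simp)
    simp [show j = 0 by simpa using hj]
  · rw [e] at hinv
    obtain ⟨_, ⟨y, rfl⟩, hy⟩ := hinv _ ⟨_, ⟨x, rfl⟩, rfl⟩ _ ((coin_kap h).2 rfl)
    exact ⟨y, (kap_inj hy).symm⟩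

lemma Ov.circle {τ : ℝ → ℂ} (h : Ov γ τ L) {z : ℂ} {r : ℝ} (hr : ∀ s, ‖γ s - z‖ = r)
    (p : ℝ × ℝ) : (BB γ τ L p).2 = p.2 := by
  have key : ∀ s, γ s - z = -(r * I) * τ s := fun s => by
    have d1 : HasDerivAt (fun s => (γ s - z) * conj (γ s - z)) _ s :=
      ((h.der s).sub_const z).mul ((h.der s).sub_const z).star
    simp only [Complex.mul_conj', hr] at d1
    have d2 := congrArg re (d1.unique (hasDerivAt_const s _))
    have n0 : ∀ u, ‖(γ u - z) * conj (τ s)‖ = r := fun u => by simp [hr, h.unit]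
    have re0 : ((γ s - z) * conj (τ s)).re = 0 := by
      simp only [add_re, mul_re, star_def, conj_re, conj_im, zero_re] at d2 ⊢; linarith
    have i1 := h.im_pos (s := s) (u := s + L / 2) ⟨by linarith only [h.pos], by linarith [h.pos]⟩
    rw [show qq γ τ s (s + L / 2) = (γ (s + L / 2) - z) * conj (τ s) - (γ s - z) * conj (τ s) by
      rw [qq]; ring, sub_im] at i1
    have i2 := (abs_le.1 ((abs_im_le_norm _).trans (n0 (s + L / 2)).le)).2
    have i3 := (abs_im_eq_norm.2 re0).trans (n0 s)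
    have e : (γ s - z) * conj (τ s) = -(r * I) := by
      refine Complex.ext (by simp [re0]) ?_
      rcases abs_cases ((γ s - z) * conj (τ s)).im with k | k
      · linarith [k.1]
      · simp only [neg_im, mul_I_im, ofReal_re]; linarith only [k.1, i3]
    rw [← e, mul_assoc, mul_comm (conj _), h.mul_conj, mul_one]
  have e : ∀ s u, qq (rv γ) (rt τ) (-u) (-s) = qq γ τ s u := fun s u => by
    have v : γ u - γ s = -(r * I) * (τ u - τ s) := by linear_combination key u - key s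
    rw [qq_rv, qq, v]
    simp only [map_mul, map_neg, map_sub, conj_ofReal, conj_I]
    linear_combination (r * I) * h.mul_conj u - (r * I) * h.mul_conj s
  conv_rhs => rw [← h.YU p.1 p.2]
  simp only [BB, YY, e]

theorem main (h' : IsOval γ L) (hd : 0 < d) :
    (∀ p ∈ Strip, ∃! q, Coin γ L d p q) ∧
    [∃ z r, ∀ s, ‖γ s - z‖ = r,
     ∃ F : Set (Set (ℝ × ℝ)), (∀ C ∈ F, IsLeaf γ L d C) ∧ F.PairwiseDisjoint id ∧ ⋃₀ F = Strip,
     ∃ a > 0, ∀ O, IsOpen O → O.Nonempty → O ⊆ Low a →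
       volume (O ∩ ⋃₀ {C | IsLeaf γ L d C}) ≠ 0,
     ∃ a > 0, ∃ᶠ k : ℕ in atTop, ∀ O, IsOpen O → O.Nonempty → O ⊆ Low a →
       ∃ p ∈ O, Fix γ L d k p ∨ ∃ C, IsLeaf γ L d C ∧ p ∈ C ∧ ∀ q ∈ C, ¬ Fix γ L d k q,
     ∃ᶠ k : ℕ in atTop, ∀ s, ∃ α, Fix γ L d k (s, α)].TFAE := by
  have h := h'.ov
  have hL := h.pos
  have hper : Per (h.TT d) L := h.TT_per d
  have hlow : ∀ a > 0, ∃ Y, ∀ O : Set (ℝ × ℝ), (∀ p ∈ O, p.2 < Y) → kap '' O ⊆ Low a := by
    intro a ha
    refine ⟨-Real.cot (min a 1), ?_⟩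
    rintro O hO _ ⟨p, hp, rfl⟩
    refine ⟨kap_mem p, (ang_mono (hO p hp)).trans_le ?_⟩
    rw [ang_cot (lt_min ha one_pos) ((min_le_right _ _).trans_lt (by linarith [Real.pi_gt_three]))]
    exact min_le_left _ _
  refine ⟨fun p hp => ?_, ?_⟩
  · rw [← kap_kin hp]
    exact ⟨_, (coin_kap h).2 rfl, fun q hq => (coin_kap h).1 hq⟩
  tfae_have 1 → 2 := by
    rintro ⟨z, r, hr⟩
    refine ⟨range fun y : ℝ => kap '' range fun x : ℝ => (x * L, y), ?_, ?_, ?_⟩
    · rintro _ ⟨y, rfl⟩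
      refine leaf_of_lf h ⟨⟨by fun_prop, fun x => by simp [add_mul]⟩,
        fun a b hab => mul_right_cancel₀ hL.ne' (congrArg Prod.fst hab),
        fun x => ⟨(h.TT d (x * L, y)).1 / L, Prod.ext (by simp [hL.ne']) (h.circle hr _)⟩⟩
    · rintro _ ⟨y, rfl⟩ _ ⟨y', rfl⟩ hne
      refine Set.disjoint_left.2 ?_
      rintro _ ⟨_, ⟨x, rfl⟩, rfl⟩ ⟨_, ⟨x', rfl⟩, hx⟩
      have : y' = y := congrArg Prod.snd (kap_inj hx)
      exact hne (by rw [this])
    · refine Subset.antisymm ?_ fun p hp => ⟨_, ⟨(kin p).2, rfl⟩, kin p,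
        ⟨(kin p).1 / L, by simp [hL.ne']⟩, kap_kin hp⟩
      rintro _ ⟨_, ⟨y, rfl⟩, q, -, rfl⟩
      exact kap_mem q
  tfae_have 2 → 3 := by
    rintro ⟨F, hF, -, hU⟩
    refine ⟨1, one_pos, fun O hO hne hsub => ?_⟩
    rw [inter_eq_left.2]
    · exact hO.measure_ne_zero _ hne
    · intro p hp
      obtain ⟨C, hC, hpC⟩ := hU.ge (hsub hp).1
      exact ⟨C, hF C hC, hpC⟩
  tfae_have 3 → 4 := by
    rintro ⟨a, ha, H⟩
    obtain ⟨Y, hY⟩ := hlow a ha
    refine ⟨ang Y, (ang_mem Y).1, .of_forall fun k O hO ⟨p0, hp0⟩ hsub => ?_⟩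
    have hdns : Dns (sh (h.TT d) (k * L)) L Y := by
      refine dns_of_measure hL (hper.sh _) mu (h.mpT d _) fun O hO hne hO' h0 => ?_
      refine H _ (kap_open hO) (hne.image _) (hY O hO') (measure_mono_null ?_
        (addHaar_image_eq_zero_of_differentiableOn_of_addHaar_eq_zero volume
          kap_diff.differentiableOn (mu_null h0)))
      rintro _ ⟨⟨p, hp, rfl⟩, C, hC, hpC⟩
      obtain ⟨c, hc, rfl⟩ := lf_of_leaf h hC
      exact ⟨p, ⟨hp, c, by simpa using hc.sh k, (kap_inj.mem_set_image).1 hpC⟩, rfl⟩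
    obtain ⟨p, hp, hp'⟩ := hdns (kap ⁻¹' O) (hO.preimage kap_diff.continuous)
      ⟨kin p0, by simpa [kap_kin (hsub hp0).1] using hp0⟩
      fun p hp => ang_mono.lt_iff_lt.1 (hsub hp).2
    refine ⟨kap p, hp, hp'.imp (fix_kap h).2 ?_⟩
    rintro ⟨c, hc, hpc, hn⟩
    refine ⟨_, leaf_of_lf h (Lf.unsh (n := k) (by simpa using hc)), mem_image_of_mem _ hpc, ?_⟩
    rintro _ ⟨_, ⟨x, rfl⟩, rfl⟩ hx
    exact hn x ((fix_kap h).1 hx)
  tfae_have 4 → 5 := by
    rintro ⟨a, ha, H⟩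
    obtain ⟨Y, hY⟩ := hlow a ha
    refine (top hL hper (h.lowT hd) (Y0 := Y) (H.mono fun k hk O hO hne hO' => ?_)).mono
      fun k hk s => ?_
    · obtain ⟨_, ⟨p, hp, rfl⟩, hp'⟩ := hk _ (kap_open hO) (hne.image _) (hY O hO')
      refine ⟨p, hp, hp'.imp (fix_kap h).1 ?_⟩
      rintro ⟨C, hC, hpC, hn⟩
      obtain ⟨c, hc, rfl⟩ := lf_of_leaf h hC
      exact ⟨c, by simpa using hc.sh k, (kap_inj.mem_set_image).1 hpC,
        fun x hx => hn _ ⟨_, ⟨x, rfl⟩, rfl⟩ ((fix_kap h).2 hx)⟩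
    · obtain ⟨y, hy⟩ := hk s
      exact ⟨ang y, (fix_kap h (p := (s, y))).2 (by rw [sh_apply, hy]; simp)⟩
  tfae_have 5 → 1 := fun H => by
    refine h.rigid hd (H.mono fun k hk s => ?_)
    obtain ⟨α, hα⟩ := hk s
    obtain ⟨p, hp, -⟩ := (coin_iff h).1 hα
    rw [hp, fix_kap h, sh_apply, sub_eq_iff_eq_add] at hα
    obtain rfl : s = p.1 := congrArg Prod.fst hp
    exact ⟨p.2, hα.trans (by ext <;> simp)⟩
  tfae_finish

end Pool.Agent.MP_61130f_an

end
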